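import Pool.Agent.H34.SCT.Dim
import Pool.Agent.H34.SCT.Miranda

/-!
# The covering dimension of the cube
-/

set_option autoImplicit false

open Set Topology

namespace Pool.Agent.H34.SCT

theorem CoveringDimLE.mono {X : Type} [TopologicalSpace X] {d e : ℕ} (h : CoveringDimLE X d)
    (hde : d ≤ e) : CoveringDimLE X e := by
  intro m U hU hcov
  obtain ⟨k, V, h1, h2, h3, h4⟩ := h m U hU hcov
  exact ⟨k, V, h1, h2, h3, fun x => (h4 x).trans (by omega)⟩

theorem coveringDimLE_of_fintype {X J : Type} [TopologicalSpace X] [Fintype J] {d : ℕ} {m : ℕ}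
    {U : Fin m → Set X} (V : J → Set X) (h1 : ∀ j, IsOpen (V j)) (h2 : (⋃ j, V j) = univ)
    (h3 : ∀ j, ∃ i, V j ⊆ U i) (h4 : Ord V d) :
    ∃ (k : ℕ) (V : Fin k → Set X), (∀ j, IsOpen (V j)) ∧ (⋃ j, V j) = univ ∧
      (∀ j, ∃ i, V j ⊆ U i) ∧ ∀ x, Nat.card {j // x ∈ V j} ≤ d + 1 := by
  refine ⟨Fintype.card J, fun k => V ((Fintype.equivFin J).symm k), fun k => h1 _, ?_,
    fun k => h3 _, ?_⟩
  · rw [eq_univ_iff_forall]
    intro x
    have h2' : x ∈ ⋃ j, V j := by rw [h2]; trivial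
    obtain ⟨j, hj⟩ := mem_iUnion.1 h2'
    exact mem_iUnion.2 ⟨Fintype.equivFin J j, by rw [Equiv.symm_apply_apply]; exact hj⟩
  · refine ord_card fun x F hF => ?_
    have h5 := h4 x (F.map (Fintype.equivFin J).symm.toEmbedding) (by
      intro j hj
      obtain ⟨i, hi, rfl⟩ := Finset.mem_map.1 hj
      exact hF i hi)
    rwa [Finset.card_map] at h5

/-- the open star of the grid point `v / N` in Kuhn's triangulation -/
def star {n : ℕ} (N : ℕ) (v : Fin n → Fin (N + 1)) : Set (Fin n → unitInterval) :=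
  {x | ∀ i j, max 0 (N * (x i : ℝ) - (v i : ℕ)) + max 0 ((v j : ℕ) - N * (x j : ℝ)) < 1}

theorem isOpen_star {n N : ℕ} (v : Fin n → Fin (N + 1)) : IsOpen (star N v) := by
  have h : star N v = ⋂ i, ⋂ j, {x : Fin n → unitInterval |
      max 0 (N * (x i : ℝ) - (v i : ℕ)) + max 0 ((v j : ℕ) - N * (x j : ℝ)) < 1} := by
    ext x
    simp [star]
  rw [h]
  refine isOpen_iInter_of_finite fun i => isOpen_iInter_of_finite fun j => ?_
  refine isOpen_lt ?_ continuous_const
  fun_prop

theorem star_near {n N : ℕ} {v : Fin n → Fin (N + 1)} {x : Fin n → unitInterval}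
    (hx : x ∈ star N v) (i : Fin n) : |N * (x i : ℝ) - (v i : ℕ)| < 1 := by
  have h := hx i i
  rw [abs_lt]
  have h1 := le_max_left 0 (N * (x i : ℝ) - (v i : ℕ))
  have h2 := le_max_right 0 (N * (x i : ℝ) - (v i : ℕ))
  have h3 := le_max_left 0 ((v i : ℕ) - N * (x i : ℝ))
  have h4 := le_max_right 0 ((v i : ℕ) - N * (x i : ℝ))
  constructor <;> linarith

theorem star_val {n N : ℕ} {v : Fin n → Fin (N + 1)} {x : Fin n → unitInterval}
    (hx : x ∈ star N v) (i : Fin n) :
    (v i : ℕ) = ⌊N * (x i : ℝ)⌋₊ ∨ (v i : ℕ) = ⌊N * (x i : ℝ)⌋₊ + 1 := by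
  have h := star_near hx i
  rw [abs_lt] at h
  have h0 : (0 : ℝ) ≤ N * (x i : ℝ) := mul_nonneg (Nat.cast_nonneg _) (x i).2.1
  have h1 := Nat.floor_le h0
  have h2 := Nat.lt_floor_add_one (N * (x i : ℝ))
  have h3 : ((v i : ℕ) : ℝ) < ((⌊N * (x i : ℝ)⌋₊ + 2 : ℕ) : ℝ) := by push_cast; linarith
  have h4 : ((⌊N * (x i : ℝ)⌋₊ : ℕ) : ℝ) < (((v i : ℕ) + 1 : ℕ) : ℝ) := by push_cast; linarith
  have h5 : (v i : ℕ) < ⌊N * (x i : ℝ)⌋₊ + 2 := by exact_mod_cast h3
  have h6 : ⌊N * (x i : ℝ)⌋₊ < (v i : ℕ) + 1 := by exact_mod_cast h4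
  omega

theorem star_chain {n N : ℕ} {v w : Fin n → Fin (N + 1)} {x : Fin n → unitInterval}
    (hv : x ∈ star N v) (hw : x ∈ star N w) :
    (∀ i, (v i : ℕ) ≤ (w i : ℕ)) ∨ ∀ i, (w i : ℕ) ≤ (v i : ℕ) := by
  by_contra hcon
  push Not at hcon
  obtain ⟨⟨i, hi⟩, ⟨j, hj⟩⟩ := hcon
  have a1 := star_val hv i
  have a2 := star_val hw i
  have a3 := star_val hv j
  have a4 := star_val hw j
  have b1 : (v i : ℕ) = ⌊N * (x i : ℝ)⌋₊ + 1 := by omega
  have b2 : (w i : ℕ) = ⌊N * (x i : ℝ)⌋₊ := by omega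
  have b3 : (v j : ℕ) = ⌊N * (x j : ℝ)⌋₊ := by omega
  have b4 : (w j : ℕ) = ⌊N * (x j : ℝ)⌋₊ + 1 := by omega
  have c1 := hv j i
  have c2 := hw i j
  rw [b3, b1] at c1
  rw [b2, b4] at c2
  push_cast at c1 c2
  have e1 := le_max_right 0 (N * (x j : ℝ) - (⌊N * (x j : ℝ)⌋₊ : ℝ))
  have e2 := le_max_right 0 ((⌊N * (x i : ℝ)⌋₊ : ℝ) + 1 - N * (x i : ℝ))
  have e3 := le_max_right 0 (N * (x i : ℝ) - (⌊N * (x i : ℝ)⌋₊ : ℝ))
  have e4 := le_max_right 0 ((⌊N * (x j : ℝ)⌋₊ : ℝ) + 1 - N * (x j : ℝ))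
  linarith

theorem ord_star (n N : ℕ) : Ord (fun v : Fin n → Fin (N + 1) => star N v) n := by
  classical
  intro x F hF
  set B : ℕ := ∑ i, ⌊N * (x i : ℝ)⌋₊ with hB
  have hlo : ∀ v ∈ F, B ≤ ∑ i, (v i : ℕ) := by
    intro v hv
    refine Finset.sum_le_sum fun i _ => ?_
    have := star_val (hF v hv) i
    omega
  have hhi : ∀ v ∈ F, ∑ i, (v i : ℕ) ≤ B + n := by
    intro v hv
    have h1 : ∑ i, (v i : ℕ) ≤ ∑ i, (⌊N * (x i : ℝ)⌋₊ + 1) := by
      refine Finset.sum_le_sum fun i _ => ?_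
      have := star_val (hF v hv) i
      omega
    rw [Finset.sum_add_distrib] at h1
    simpa using h1
  have h2 : F.card ≤ (Finset.range (n + 1)).card := by
    refine Finset.card_le_card_of_injOn (fun v => (∑ i, (v i : ℕ)) - B) ?_ ?_
    · intro v hv
      have := hlo v hv
      have := hhi v hv
      rw [Finset.coe_range, mem_Iio]
      show (∑ i, (v i : ℕ)) - B < n + 1
      omega
    · intro v hv w hw hvw
      have h3 := hlo v hv
      have h4 := hlo w hw
      have h5 : ∑ i, (v i : ℕ) = ∑ i, (w i : ℕ) := by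
        have : (∑ i, (v i : ℕ)) - B = (∑ i, (w i : ℕ)) - B := hvw
        omega
      have h6 : ∀ i ∈ Finset.univ, (v i : ℕ) = (w i : ℕ) := by
        rcases star_chain (hF v hv) (hF w hw) with h | h
        · exact (Finset.sum_eq_sum_iff_of_le fun i _ => h i).1 h5
        · intro i hi
          exact ((Finset.sum_eq_sum_iff_of_le fun i _ => h i).1 h5.symm i hi).symm
      funext i
      exact Fin.ext (h6 i (Finset.mem_univ i))
  simpa using h2

/-- **Upper bound.** -/
theorem cube_le (n : ℕ) : CoveringDimLE (Fin n → unitInterval) n := by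
  intro m U hU hcov
  obtain ⟨δ, hδ, hleb⟩ := lebesgue_number_lemma_of_metric
    (s := (univ : Set (Fin n → unitInterval))) isCompact_univ hU hcov.symm.subset
  obtain ⟨N, hN⟩ := exists_nat_gt (1 / δ)
  have hN0 : (0 : ℝ) < N := (by positivity : (0 : ℝ) < 1 / δ).trans hN
  refine coveringDimLE_of_fintype (fun v : Fin n → Fin (N + 1) => star N v)
    (fun v => isOpen_star v) ?_ ?_ (ord_star n N)
  · rw [eq_univ_iff_forall]
    intro x
    have hfl : ∀ i, ⌊N * (x i : ℝ)⌋₊ < N + 1 := by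
      intro i
      have h1 : N * (x i : ℝ) ≤ N := by nlinarith [(x i).2.2]
      have h2 := Nat.floor_le_of_le h1
      omega
    refine mem_iUnion.2 ⟨fun i => ⟨⌊N * (x i : ℝ)⌋₊, hfl i⟩, fun i j => ?_⟩
    show max 0 (N * (x i : ℝ) - (⌊N * (x i : ℝ)⌋₊ : ℝ)) +
      max 0 ((⌊N * (x j : ℝ)⌋₊ : ℝ) - N * (x j : ℝ)) < 1
    have h0 : ∀ i, (0 : ℝ) ≤ N * (x i : ℝ) := fun i =>
      mul_nonneg (Nat.cast_nonneg _) (x i).2.1
    rw [max_eq_left (a := (0 : ℝ)) (b := (⌊N * (x j : ℝ)⌋₊ : ℝ) - N * (x j : ℝ))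
      (by linarith [Nat.floor_le (h0 j)]), add_zero]
    exact max_lt one_pos (by linarith [Nat.lt_floor_add_one (N * (x i : ℝ))])
  · intro v
    have hv : ∀ i, ((v i : ℕ) : ℝ) / N ∈ unitInterval := by
      intro i
      have h1 : ((v i : ℕ) : ℝ) ≤ N := by
        have := (v i).2
        exact_mod_cast (by omega : (v i : ℕ) ≤ N)
      exact ⟨by positivity, by rw [div_le_one hN0]; exact h1⟩
    obtain ⟨i, hi⟩ := hleb (fun i => ⟨_, hv i⟩) trivial
    refine ⟨i, fun x hx => hi ?_⟩
    rw [Metric.mem_ball, dist_pi_lt_iff hδ]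
    intro j
    rw [Subtype.dist_eq, Real.dist_eq]
    show |(x j : ℝ) - ((v j : ℕ) : ℝ) / N| < δ
    have h1 := star_near hx j
    have h2 : (x j : ℝ) - ((v j : ℕ) : ℝ) / N = (N * (x j : ℝ) - (v j : ℕ)) / N := by
      field_simp
    rw [h2, abs_div, abs_of_pos hN0, div_lt_iff₀ hN0]
    have h3 : 1 < δ * N := by
      rw [div_lt_iff₀ hδ] at hN
      linarith
    linarith

/-- **Lower bound** (Lebesgue's covering theorem). -/
theorem cube_not_le (n : ℕ) : ¬ CoveringDimLE (Fin (n + 1) → unitInterval) n := by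
  classical
  intro h
  -- an open cover none of whose members meets two opposite faces
  set e := Fintype.equivFin (Fin (n + 1) → Bool) with he
  set W : (Fin (n + 1) → Bool) → Set (Fin (n + 1) → unitInterval) := fun τ =>
    {x | ∀ i, x i ≠ (if τ i then 1 else 0)} with hW
  have hWo : ∀ τ, IsOpen (W τ) := by
    intro τ
    have h1 : W τ = ⋂ i, {x : Fin (n + 1) → unitInterval | x i ≠ (if τ i then 1 else 0)} := by
      ext x
      simp [hW]
    rw [h1]
    refine isOpen_iInter_of_finite fun i => ?_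
    exact isOpen_ne_fun (continuous_apply i) continuous_const
  have hWcov : ∀ x, ∃ τ, x ∈ W τ := by
    intro x
    refine ⟨fun i => decide (x i ≠ 1), fun i => ?_⟩
    show x i ≠ (if decide (x i ≠ 1) = true then 1 else 0)
    by_cases hi : x i = 1
    · have : decide (x i ≠ 1) = false := by simp [hi]
      rw [this, hi]
      simp
    · have : decide (x i ≠ 1) = true := by simp [hi]
      rw [this]
      simpa using hi
  obtain ⟨k, V, hVo, hVcov, hVU, hVord⟩ := h _ (fun l => W (e.symm l)) (fun l => hWo _) (by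
    rw [eq_univ_iff_forall]
    intro x
    obtain ⟨τ, hτ⟩ := hWcov x
    exact mem_iUnion.2 ⟨e τ, by rw [Equiv.symm_apply_apply]; exact hτ⟩)
  have hopp : ∀ j i, ¬ ((∃ x ∈ V j, x i = 0) ∧ ∃ x ∈ V j, x i = 1) := by
    rintro j i ⟨⟨x, hx, hx0⟩, ⟨y, hy, hy1⟩⟩
    obtain ⟨l, hl⟩ := hVU j
    have h1 := hl hx i
    have h2 := hl hy i
    by_cases ht : e.symm l i = true
    · rw [if_pos ht] at h2
      exact h2 hy1
    · rw [if_neg ht] at h1
      exact h1 hx0
  have hVne : ∀ j, (V j)ᶜ.Nonempty := by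
    intro j
    by_contra hcon
    rw [not_nonempty_iff_eq_empty, compl_empty_iff] at hcon
    exact hopp j 0 ⟨⟨fun _ => 0, by rw [hcon]; trivial, rfl⟩, ⟨fun _ => 1, by rw [hcon]; trivial, rfl⟩⟩
  set u : Fin k → (Fin (n + 1) → unitInterval) → ℝ := fun j x => Metric.infDist x (V j)ᶜ with hu
  have hu0 : ∀ j x, 0 ≤ u j x := fun j x => Metric.infDist_nonneg
  have hupos : ∀ j x, 0 < u j x ↔ x ∈ V j := by
    intro j x
    rw [← not_iff_not, not_lt]
    constructor
    · intro h1 h2
      have h3 : u j x = 0 := le_antisymm h1 (hu0 j x)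
      have h4 := ((hVo j).isClosed_compl.mem_iff_infDist_zero (hVne j)).2 h3
      exact h4 h2
    · intro h1
      exact (((hVo j).isClosed_compl.mem_iff_infDist_zero (hVne j)).1 h1).le
  have huc : ∀ j, Continuous (u j) := fun j => Metric.continuous_infDist_pt _
  -- the least face index met
  have hP : ∀ j : Fin k, ∃ i : ℕ, ∀ hi : i < n + 1, ∃ x ∈ V j, x ⟨i, hi⟩ = 0 := fun j =>
    ⟨n + 1, fun hi => absurd hi (lt_irrefl _)⟩
  set a : Fin k → ℕ := fun j => Nat.find (hP j) with ha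
  have ha_le : ∀ j, a j ≤ n + 1 := fun j => Nat.find_min' _ fun hi => absurd hi (lt_irrefl _)
  have ha1 : ∀ j (i : Fin (n + 1)), a j = i → ∀ x, x i = 1 → x ∉ V j := by
    intro j i hji x hx1 hxV
    have h1 := Nat.find_spec (hP j)
    have h2 : Nat.find (hP j) = i := hji
    have h3 : Nat.find (hP j) < n + 1 := by rw [h2]; exact i.2
    obtain ⟨y, hy, hy0⟩ := h1 h3
    have h4 : (⟨Nat.find (hP j), h3⟩ : Fin (n + 1)) = i := Fin.ext h2
    rw [h4] at hy0
    exact hopp j i ⟨⟨y, hy, hy0⟩, ⟨x, hxV, hx1⟩⟩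
  have ha2 : ∀ j (i : Fin (n + 1)), (i : ℕ) < a j → ∀ x, x i = 0 → x ∉ V j := by
    intro j i hji x hx0 hxV
    have h1 := Nat.find_min (hP j) hji
    exact h1 fun hi => ⟨x, hxV, hx0⟩
  set L : ℕ → (Fin (n + 1) → unitInterval) → ℝ := fun i x =>
    ∑ j with a j = i, u j x with hL
  set R : ℕ → (Fin (n + 1) → unitInterval) → ℝ := fun i x =>
    ∑ j with i < a j, u j x with hR
  have hLc : ∀ i, Continuous (L i) := fun i => continuous_finsetSum _ fun j _ => huc j
  have hRc : ∀ i, Continuous (R i) := fun i => continuous_finsetSum _ fun j _ => huc j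
  have hL0 : ∀ i x, 0 ≤ L i x := fun i x => Finset.sum_nonneg fun j _ => hu0 j x
  have hR0 : ∀ i x, 0 ≤ R i x := fun i x => Finset.sum_nonneg fun j _ => hu0 j x
  have hu_zero : ∀ j x, x ∉ V j → u j x = 0 := fun j x hx =>
    le_antisymm (not_lt.1 fun h => hx ((hupos j x).1 h)) (hu0 j x)
  set q : (Fin (n + 1) → ℝ) → (Fin (n + 1) → unitInterval) := fun x i =>
    projIcc 0 1 zero_le_one (x i) with hq
  have hqc : Continuous q := continuous_pi fun i => continuous_projIcc.comp (continuous_apply i)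
  obtain ⟨x0, -, hx0⟩ := PM.Miranda.poincare_miranda (n + 1)
    (fun x i => R i (q x) - L i (q x))
    (continuous_pi fun i : Fin (n + 1) => ((hRc (i : ℕ)).comp hqc).sub
      ((hLc (i : ℕ)).comp hqc)).continuousOn
    (by
      intro x _ i hxi
      have h1 : R i (q x) = 0 := Finset.sum_eq_zero fun j hj => hu_zero j _
        (ha2 j i (Finset.mem_filter.1 hj).2 _ (by
          show projIcc 0 1 zero_le_one (x i) = 0
          rw [hxi]
          exact projIcc_left _))
      show R i (q x) - L i (q x) ≤ 0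
      rw [h1]
      linarith [hL0 i (q x)])
    (by
      intro x _ i hxi
      have h1 : L i (q x) = 0 := Finset.sum_eq_zero fun j hj => hu_zero j _
        (ha1 j i (Finset.mem_filter.1 hj).2 _ (by
          show projIcc 0 1 zero_le_one (x i) = 1
          rw [hxi]
          exact projIcc_right _))
      show 0 ≤ R i (q x) - L i (q x)
      rw [h1]
      linarith [hR0 i (q x)])
  set y := q x0 with hy
  have hRL : ∀ i : ℕ, i < n + 1 → R i y = L i y := by
    intro i hi
    have := congrFun hx0 ⟨i, hi⟩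
    have h2 : R i y - L i y = 0 := this
    linarith
  have htot : 0 < L 0 y + R 0 y := by
    have h1 : y ∈ ⋃ j, V j := by rw [hVcov]; trivial
    obtain ⟨j, hj⟩ := mem_iUnion.1 h1
    have h2 := (hupos j y).2 hj
    rcases Nat.eq_zero_or_pos (a j) with h3 | h3
    · have : u j y ≤ L 0 y := Finset.single_le_sum (f := fun j => u j y) (fun j _ => hu0 j y)
        (Finset.mem_filter.2 ⟨Finset.mem_univ _, h3⟩)
      linarith [hR0 0 y]
    · have : u j y ≤ R 0 y := Finset.single_le_sum (f := fun j => u j y) (fun j _ => hu0 j y)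
        (Finset.mem_filter.2 ⟨Finset.mem_univ _, h3⟩)
      linarith [hL0 0 y]
  have hsplit : ∀ i, R i y = L (i + 1) y + R (i + 1) y := by
    intro i
    show ∑ j with i < a j, u j y = ∑ j with a j = i + 1, u j y + ∑ j with i + 1 < a j, u j y
    rw [← Finset.sum_union]
    · refine Finset.sum_congr ?_ fun _ _ => rfl
      ext j
      simp only [Finset.mem_filter, Finset.mem_univ, true_and, Finset.mem_union]
      omega
    · rw [Finset.disjoint_left]
      intro j h1 h2
      have h1' := (Finset.mem_filter.1 h1).2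
      have h2' := (Finset.mem_filter.1 h2).2
      omega
  have hRpos : ∀ i : ℕ, i < n + 1 → 0 < R i y := by
    intro i
    induction i with
    | zero =>
      intro hi
      have := hRL 0 hi
      linarith
    | succ i ih =>
      intro hi
      have h1 := ih (by omega)
      have h2 := hRL (i + 1) hi
      have h3 := hsplit i
      linarith
  have hfind : ∀ i : ℕ, i ≤ n + 1 → ∃ j, a j = i ∧ y ∈ V j := by
    intro i hi
    rcases Nat.lt_or_ge i (n + 1) with h1 | h1
    · have h2 := hRpos i h1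
      rw [hRL i h1] at h2
      obtain ⟨j, hj, hj2⟩ := Finset.exists_ne_zero_of_sum_ne_zero h2.ne'
      refine ⟨j, (Finset.mem_filter.1 hj).2, ?_⟩
      by_contra hcon
      exact hj2 (hu_zero j y hcon)
    · have h2 := hRpos n (by omega)
      obtain ⟨j, hj, hj2⟩ := Finset.exists_ne_zero_of_sum_ne_zero h2.ne'
      have h3 := (Finset.mem_filter.1 hj).2
      have h4 := ha_le j
      refine ⟨j, by omega, ?_⟩
      by_contra hcon
      exact hj2 (hu_zero j y hcon)
  have hcard := card_ord hVord y (Finset.univ.filter fun j => y ∈ V j)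
    (fun j hj => (Finset.mem_filter.1 hj).2)
  have h5 : Finset.range (n + 2) ⊆ (Finset.univ.filter fun j => y ∈ V j).image a := by
    intro i hi
    rw [Finset.mem_range] at hi
    obtain ⟨j, hj1, hj2⟩ := hfind i (by omega)
    exact Finset.mem_image.2 ⟨j, Finset.mem_filter.2 ⟨Finset.mem_univ _, hj2⟩, hj1⟩
  have h6 := Finset.card_le_card h5
  rw [Finset.card_range] at h6
  have h7 := Finset.card_image_le (s := Finset.univ.filter fun j => y ∈ V j) (f := a)
  omega

/-- The cube is a continuous image of the unit interval. -/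
theorem cube_peano (n : ℕ) : ∃ p : ℝ → (Fin n → unitInterval), Continuous p ∧
    p '' Icc 0 1 = univ := by
  set f : cantorSet → (Fin n → unitInterval) := fun x i =>
    cantorToHilbert (cantorSetHomeomorphNatToBool x) i with hf
  have hfc : Continuous f := continuous_pi fun i => (continuous_apply (i : ℕ)).comp
    (cantorToHilbert_continuous.comp cantorSetHomeomorphNatToBool.continuous)
  have hfs : Function.Surjective f := by
    intro y
    obtain ⟨z, hz⟩ := cantorToHilbert_surjective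
      (fun i => if h : i < n then y ⟨i, h⟩ else 0)
    refine ⟨cantorSetHomeomorphNatToBool.symm z, ?_⟩
    funext i
    show cantorToHilbert (cantorSetHomeomorphNatToBool (cantorSetHomeomorphNatToBool.symm z)) i = y i
    rw [Homeomorph.apply_symm_apply, hz]
    show (if h : (i : ℕ) < n then y ⟨i, h⟩ else 0) = y i
    rw [dif_pos i.2]
  have hcl : IsClosed cantorSet := isClosed_cantorSet
  have hext : ∀ i : Fin n, ∃ G : C(ℝ, ℝ), ∀ x : cantorSet, G x = (f x i : ℝ) := by
    intro i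
    obtain ⟨G, hG⟩ := ContinuousMap.exists_restrict_eq hcl
      (⟨fun x => (f x i : ℝ), continuous_subtype_val.comp ((continuous_apply i).comp hfc)⟩ :
        C(cantorSet, ℝ))
    refine ⟨G, fun x => ?_⟩
    exact congrArg (fun F : C(cantorSet, ℝ) => F x) hG
  choose G hG using hext
  refine ⟨fun t i => projIcc 0 1 zero_le_one (G i t),
    continuous_pi fun i => continuous_projIcc.comp (G i).continuous, ?_⟩
  rw [eq_univ_iff_forall]
  intro y
  obtain ⟨x, hx⟩ := hfs y
  refine ⟨x, cantorSet_subset_unitInterval x.2, ?_⟩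
  funext i
  show projIcc 0 1 zero_le_one (G i x) = y i
  rw [hG i x, hx]
  exact projIcc_val zero_le_one (y i)

end Pool.Agent.H34.SCT
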