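import Mathlib

/-!
# Definitions for MP_975a4b_lc (strong computable type)
-/

open Set Topology

namespace Pool.Agent.H34.SCT

/-- The Hilbert cube `[0,1]^ℕ` (with the product topology). -/
abbrev HilbertCube : Type := ℕ → unitInterval

/-- The metric `d(x,y) = ∑ 2^{-n} |x_n - y_n|`. -/
noncomputable def qdist (x y : HilbertCube) : ℝ :=
  ∑' n : ℕ, (1 / 2 : ℝ) ^ n * |(x n : ℝ) - (y n : ℝ)|

/-- Codes `(a, q, ρ, s)` of rational open balls: the centre is the rational point with coordinates
`min (a_n) (q+1) / (q+1)` (`a_n = 0` beyond the end of the list `a`), the radius is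
`(ρ+1)/(s+1)`. -/
abbrev BallCode : Type := List ℕ × ℕ × ℕ × ℕ

/-- The centre of a coded ball. -/
noncomputable def centre (b : BallCode) : HilbertCube := fun n =>
  ⟨((min (b.1.getD n 0) (b.2.1 + 1) : ℕ) : ℝ) / ((b.2.1 : ℝ) + 1), by
    constructor
    · positivity
    · rw [div_le_one (by positivity)]
      exact_mod_cast Nat.min_le_right _ _⟩

/-- The radius of a coded ball. -/
noncomputable def rad (b : BallCode) : ℝ := ((b.2.2.1 : ℝ) + 1) / ((b.2.2.2 : ℝ) + 1)

/-- The rational open ball with code `b`. -/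
def ball (b : BallCode) : Set HilbertCube := {y | qdist (centre b) y < rad b}

/-- The set `O ⊆ ℕ` as an oracle: its characteristic function. -/
noncomputable def oracle (O : Set ℕ) : ℕ →. ℕ := by
  classical
  exact fun n => Part.some (if n ∈ O then 1 else 0)

/-- `A` is `O`-computably enumerable: it is listed (with possible gaps) by a function computable
with oracle `O`. -/
def CEIn (O : Set ℕ) {α : Type} [Primcodable α] (A : Set α) : Prop :=
  ∃ f : ℕ → Option α, ComputableIn {oracle O} f ∧ ∀ a, a ∈ A ↔ ∃ n, f n = some a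

/-- The set of finite families of rational open balls whose union covers `Y` is `O`-c.e. -/
def SemicomputableIn (O : Set ℕ) (Y : Set HilbertCube) : Prop :=
  CEIn O {L : List BallCode | ∀ y ∈ Y, ∃ b ∈ L, y ∈ ball b}

/-- Semicomputable, and the set of rational open balls that meet `Y` is `O`-c.e. -/
def ComputableRel (O : Set ℕ) (Y : Set HilbertCube) : Prop :=
  SemicomputableIn O Y ∧ CEIn O {b : BallCode | ∃ y ∈ Y, y ∈ ball b}

/-- `X` has strong computable type: for every oracle `O` and every copy `Y` of `X` in the Hilbert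
cube, if `Y` is semicomputable relative to `O` then it is computable relative to `O`. -/
def StrongComputableType (X : Type) [TopologicalSpace X] : Prop :=
  ∀ (O : Set ℕ) (Y : Set HilbertCube), Nonempty (X ≃ₜ Y) → SemicomputableIn O Y → ComputableRel O Y

/-- Covering dimension at most `n`: every finite open cover has a finite open refinement such that
every point lies in at most `n + 1` of its members. -/
def CoveringDimLE (X : Type) [TopologicalSpace X] (n : ℕ) : Prop :=
  ∀ (m : ℕ) (U : Fin m → Set X), (∀ i, IsOpen (U i)) → (⋃ i, U i) = univ →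
    ∃ (k : ℕ) (V : Fin k → Set X), (∀ j, IsOpen (V j)) ∧ (⋃ j, V j) = univ ∧
      (∀ j, ∃ i, V j ⊆ U i) ∧ ∀ x, Nat.card {j // x ∈ V j} ≤ n + 1

/-- `X` is homeomorphic to a proper subset of itself. -/
def ProperlyContainsCopy (X : Type) [TopologicalSpace X] : Prop :=
  ∃ X' : Set X, X' ≠ univ ∧ Nonempty (X ≃ₜ X')

/-! ## Auxiliary notions (not used in the statement of the result) -/

/-- Half of formal disjointness at coordinate `n`:
`2^{-n} (c_n - c'_n) ≥ r + r'` with denominators cleared. -/
def Half (n : ℕ) (b b' : BallCode) : Prop :=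
  2 ^ n * ((b.2.1 + 1) * (b'.2.1 + 1)) *
      ((b.2.2.1 + 1) * (b'.2.2.2 + 1) + (b'.2.2.1 + 1) * (b.2.2.2 + 1)) +
    min (b'.1.getD n 0) (b'.2.1 + 1) * (b.2.1 + 1) * ((b.2.2.2 + 1) * (b'.2.2.2 + 1)) ≤
  min (b.1.getD n 0) (b.2.1 + 1) * (b'.2.1 + 1) * ((b.2.2.2 + 1) * (b'.2.2.2 + 1))

/-- Formal disjointness of two coded balls. -/
def FD (b b' : BallCode) : Prop :=
  ∃ n < max b.1.length b'.1.length, Half n b b' ∨ Half n b' b

end Pool.Agent.H34.SCT
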