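import Pool.Agent.H34.SCT.Space
import Pool.Agent.H34.SCT.Arc

/-!
# The covering dimension of the spaces
-/

set_option autoImplicit false

open Set Topology OnePoint

namespace Pool.Agent.H34.SCT

/-- each point lies in at most `d + 1` members of the family -/
def Ord {X J : Type} (V : J → Set X) (d : ℕ) : Prop :=
  ∀ (x : X) (F : Finset J), (∀ j ∈ F, x ∈ V j) → F.card ≤ d + 1

theorem ord_card {X J : Type} [Fintype J] {V : J → Set X} {d : ℕ} (h : Ord V d) (x : X) :
    Nat.card {j // x ∈ V j} ≤ d + 1 := by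
  classical
  rw [Nat.card_eq_fintype_card, Fintype.card_subtype]
  exact h x _ fun j hj => (Finset.mem_filter.1 hj).2

theorem card_ord {X J : Type} [Fintype J] {V : J → Set X} {d : ℕ}
    (h : ∀ x, Nat.card {j // x ∈ V j} ≤ d + 1) : Ord V d := by
  classical
  intro x F hF
  refine le_trans ?_ (h x)
  rw [Nat.card_eq_fintype_card, Fintype.card_subtype]
  exact Finset.card_le_card fun j hj => Finset.mem_filter.2 ⟨Finset.mem_univ _, hF j hj⟩

theorem Ord.mono {X J : Type} {V W : J → Set X} {d : ℕ} (h : Ord V d) (hWV : ∀ j, W j ⊆ V j) :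
    Ord W d := fun x F hF => h x F fun j hj => hWV j (hF j hj)

section

variable {K : Type} [TopologicalSpace K] {p : ℝ → K}

/-- the sequences which begin with `N` infinities -/
def AN (p : ℝ → K) (N : ℕ) : Set (XX p) := {x | ∀ n < N, x.1.1 n = ∞}

theorem an_shift {N : ℕ} {x : XX p} (hx : x ∈ AN p N) : iota x ∈ AN p (N + 1) := by
  intro n hn
  cases n with
  | zero => rfl
  | succ n => exact hx n (by omega)

theorem isClosed_AN (N : ℕ) : IsClosed (AN p N) := by
  have h1 : AN p N = ⋂ n, ⋂ (_ : n < N), {x : XX p | x.1.1 n = ∞} := by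
    ext x
    simp [AN]
  rw [h1]
  refine isClosed_iInter fun n => isClosed_iInter fun _ => ?_
  exact isClosed_singleton.preimage (continuous_coord (p := p) n)

/-- the statement of the induction -/
def Claim (p : ℝ → K) (d N : ℕ) : Prop :=
  ∀ (m : ℕ) (U : Fin m → Set (XX p)), (∀ i, IsOpen (U i)) → (⋃ i, U i) = univ →
    ∀ (k : ℕ) (O : Fin k → Set (XX p)) (c : Fin k → Fin m), (∀ l, IsOpen (O l)) →
      (∀ l, closure (O l) ⊆ U (c l)) → Ord O d → AN p N ⊆ (⋃ l, O l) →
    ∃ (J : Type) (_ : Fintype J) (V : J → Set (XX p)) (s : ℝ) (j0 : J),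
      (∀ j, IsOpen (V j)) ∧ (⋃ j, V j) = univ ∧ (∀ j, ∃ i, V j ⊆ U i) ∧ Ord V d ∧
      Phi p s ∈ V j0 ∧ ∀ j, j ≠ j0 → Phi p s ∉ closure (V j)

theorem claim_zero [T2Space K] (hp : Continuous p) (d : ℕ) : Claim p d 0 := by
  classical
  intro m U hU hcov k O c hO hOU hord hA
  have h0 : Phi p 0 ∈ ⋃ l, O l := hA fun n hn => absurd hn (Nat.not_lt_zero n)
  obtain ⟨j0, hj0⟩ := mem_iUnion.1 h0
  obtain ⟨ρ, hρ, hball⟩ := Metric.isOpen_iff.1 ((hO j0).preimage (continuous_Phi hp)) 0 hj0
  have hcl : IsClosed (Phi p '' Icc (-(ρ / 2)) (ρ / 2)) :=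
    (isCompact_Icc.image (continuous_Phi hp)).isClosed
  have hin : Phi p '' Icc (-(ρ / 2)) (ρ / 2) ⊆ O j0 := by
    rintro _ ⟨t, ht, rfl⟩
    refine hball ?_
    rw [Metric.mem_ball, Real.dist_eq, sub_zero, abs_lt]
    exact ⟨by linarith [ht.1], by linarith [ht.2]⟩
  have hVO : ∀ j, (if j = j0 then O j else O j \ Phi p '' Icc (-(ρ / 2)) (ρ / 2)) ⊆ O j := by
    intro j
    split_ifs
    · exact subset_rfl
    · exact diff_subset
  refine ⟨Fin k, inferInstance, fun j => if j = j0 then O j else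
    O j \ Phi p '' Icc (-(ρ / 2)) (ρ / 2), 0, j0, ?_, ?_, ?_, hord.mono hVO, ?_, ?_⟩
  · intro j
    show IsOpen (if j = j0 then O j else O j \ Phi p '' Icc (-(ρ / 2)) (ρ / 2))
    split_ifs
    · exact hO j
    · exact (hO j).sdiff hcl
  · rw [eq_univ_iff_forall]
    intro x
    obtain ⟨j, hj⟩ := mem_iUnion.1 (hA (fun n hn => absurd hn (Nat.not_lt_zero n) : x ∈ AN p 0))
    by_cases hx : x ∈ Phi p '' Icc (-(ρ / 2)) (ρ / 2)
    · refine mem_iUnion.2 ⟨j0, ?_⟩
      show x ∈ (if j0 = j0 then O j0 else O j0 \ Phi p '' Icc (-(ρ / 2)) (ρ / 2))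
      rw [if_pos rfl]
      exact hin hx
    · refine mem_iUnion.2 ⟨j, ?_⟩
      show x ∈ (if j = j0 then O j else O j \ Phi p '' Icc (-(ρ / 2)) (ρ / 2))
      split_ifs
      · exact hj
      · exact ⟨hj, hx⟩
  · intro j
    exact ⟨c j, (hVO j).trans (subset_closure.trans (hOU j))⟩
  · show Phi p 0 ∈ (if j0 = j0 then O j0 else O j0 \ Phi p '' Icc (-(ρ / 2)) (ρ / 2))
    rw [if_pos rfl]
    exact hj0
  · intro j hj
    show Phi p 0 ∉ closure (if j = j0 then O j else O j \ Phi p '' Icc (-(ρ / 2)) (ρ / 2))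
    rw [if_neg hj]
    have h1 : closure (O j \ Phi p '' Icc (-(ρ / 2)) (ρ / 2)) ⊆
        (Phi p '' Ioo (-(ρ / 2)) (ρ / 2))ᶜ := by
      refine closure_minimal ?_ (isOpen_Phi_Ioo _ _).isClosed_compl
      intro x hx hx'
      exact hx.2 (image_mono Ioo_subset_Icc_self hx')
    exact fun h => h1 h ⟨0, ⟨by linarith, by linarith⟩, rfl⟩

theorem claim_succ [T2Space K] [CompactSpace K] (hp : Continuous p) {d : ℕ} (hd : 1 ≤ d) {N : ℕ}
    (ih : Claim p d N) : Claim p d (N + 1) := by
  classical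
  haveI := compactSpace_XX hp
  intro m U hU hcov k O c0 hO hOU hord hA
  -- the cover of the copy at infinity
  have hU' : ∀ i, IsOpen (iota ⁻¹' U i) := fun i => (hU i).preimage continuous_iota
  have hcov' : (⋃ i, iota ⁻¹' U i) = univ := by
    rw [← preimage_iUnion, hcov, preimage_univ]
  have hO' : ∀ l, IsOpen (iota ⁻¹' O l) := fun l => (hO l).preimage continuous_iota
  have hOcl : ∀ l, closure (iota ⁻¹' O l) ⊆ iota ⁻¹' U (c0 l) := fun l =>
    (continuous_iota.closure_preimage_subset _).trans (preimage_mono (hOU l))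
  have hA' : AN p N ⊆ ⋃ l, iota ⁻¹' O l := by
    intro x hx
    obtain ⟨l, hl⟩ := mem_iUnion.1 (hA (an_shift hx))
    exact mem_iUnion.2 ⟨l, hl⟩
  have hord' : Ord (fun l => iota ⁻¹' O l) d := fun x F hF => hord (iota x) F hF
  obtain ⟨v, hvcov, hvo, hvcl⟩ := exists_iUnion_eq_closure_subset hU'
    (fun x => Set.toFinite _) hcov'
  have hO2 : ∀ l, ∃ G : Set (XX p), IsOpen G ∧ closure (iota ⁻¹' O l) ⊆ G ∧
      closure G ⊆ iota ⁻¹' U (c0 l) := fun l =>
    normal_exists_closure_subset isClosed_closure (hU' (c0 l)) (hOcl l)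
  choose O2 hO2o hO2s hO2cl using hO2
  obtain ⟨W, hW⟩ : ∃ W : Fin m → Set (XX p), ∀ i, W i = v i ∪
      ⋃ l, (if c0 l = i then O2 l else ∅) := ⟨_, fun _ => rfl⟩
  have hWo : ∀ i, IsOpen (W i) := by
    intro i
    rw [hW]
    refine (hvo i).union (isOpen_iUnion fun l => ?_)
    by_cases h : c0 l = i
    · rw [if_pos h]; exact hO2o l
    · rw [if_neg h]; exact isOpen_empty
  have hWcov : (⋃ i, W i) = univ := by
    rw [eq_univ_iff_forall]
    intro x
    have h1 : x ∈ iUnion v := by rw [hvcov]; trivial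
    obtain ⟨i, hi⟩ := mem_iUnion.1 h1
    exact mem_iUnion.2 ⟨i, by rw [hW]; exact Or.inl hi⟩
  have hOW : ∀ l, closure (iota ⁻¹' O l) ⊆ W (c0 l) := by
    intro l x hx
    rw [hW]
    refine Or.inr (mem_iUnion.2 ⟨l, ?_⟩)
    rw [if_pos rfl]
    exact hO2s l hx
  have hWcl : ∀ i, closure (W i) ⊆ iota ⁻¹' U i := by
    intro i
    rw [hW, closure_union, closure_iUnion_of_finite]
    refine union_subset (hvcl i) (iUnion_subset fun l => ?_)
    by_cases h : c0 l = i
    · rw [if_pos h, ← h]; exact hO2cl l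
    · rw [if_neg h, closure_empty]; exact empty_subset _
  obtain ⟨J, hJ, V, s, j0, hVo, hVcov, hVW, hVord, hs, hscl⟩ :=
    ih m W hWo hWcov k (fun l => iota ⁻¹' O l) c0 hO' hOW hord' hA'
  choose c hc using hVW
  have hVcl : ∀ j, closure (V j) ⊆ iota ⁻¹' U (c j) := fun j =>
    (closure_mono (hc j)).trans (hWcl (c j))
  -- the exceptional compact set
  obtain ⟨T, hT⟩ : ∃ T : ℕ, ∀ j x, x ∉ Phi p '' Ioo (-(T : ℝ)) T → shift x ∈ closure (V j) →
      x ∈ U (c j) := by
    have hK : IsCompact (⋃ j, (shift ⁻¹' closure (V j) \ U (c j))) := by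
      refine isCompact_iUnion fun j => IsClosed.isCompact ?_
      exact (isClosed_closure.preimage continuous_shift).sdiff (hU (c j))
    have hsub : (⋃ j, (shift ⁻¹' closure (V j) \ U (c j))) ⊆
        ⋃ n : ℕ, Phi p '' Ioo (-(n : ℝ)) n := by
      intro x hx
      obtain ⟨j, hj1, hj2⟩ := mem_iUnion.1 hx
      rcases Phi_or_iota x with ⟨t, rfl⟩ | ⟨-, h2⟩
      · obtain ⟨n, hn⟩ := exists_nat_gt |t|
        rw [abs_lt] at hn
        exact mem_iUnion.2 ⟨n, t, hn, rfl⟩
      · exfalso
        apply hj2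
        have h3 := hVcl j hj1
        rw [h2]
        exact h3
    obtain ⟨n, hn⟩ := hK.elim_directed_cover (fun n : ℕ => Phi p '' Ioo (-(n : ℝ)) n)
      (fun n => isOpen_Phi_Ioo _ _) hsub (by
        intro n n'
        refine ⟨max n n', image_mono (Ioo_subset_Ioo ?_ ?_),
          image_mono (Ioo_subset_Ioo ?_ ?_)⟩
        · rw [neg_le_neg_iff]
          exact_mod_cast le_max_left n n'
        · exact_mod_cast le_max_left n n'
        · rw [neg_le_neg_iff]
          exact_mod_cast le_max_right n n'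
        · exact_mod_cast le_max_right n n')
    refine ⟨n, fun j x hx hxj => ?_⟩
    by_contra hcon
    exact hx (hn (mem_iUnion.2 ⟨j, hxj, hcon⟩))
  obtain ⟨a, haT, hga⟩ := g_large_neg s T
  obtain ⟨b, hbT, hgb⟩ := g_large s T
  have hT0 : (0 : ℝ) ≤ T := Nat.cast_nonneg T
  have hab : a < b := by linarith
  -- the neighbourhoods of `a` and `b`
  have hE : IsOpen {t : ℝ | ∀ j, j ≠ j0 → Phi p (g t) ∉ closure (V j)} := by
    have h1 : {t : ℝ | ∀ j, j ≠ j0 → Phi p (g t) ∉ closure (V j)} =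
        ⋂ j, {t : ℝ | j ≠ j0 → Phi p (g t) ∉ closure (V j)} := by
      ext t
      simp
    rw [h1]
    refine isOpen_iInter_of_finite fun j => ?_
    by_cases hj : j = j0
    · have h2 : {t : ℝ | j ≠ j0 → Phi p (g t) ∉ closure (V j)} = univ := by
        ext t
        simp [hj]
      rw [h2]
      exact isOpen_univ
    · have h2 : {t : ℝ | j ≠ j0 → Phi p (g t) ∉ closure (V j)} =
          (fun t => Phi p (g t)) ⁻¹' (closure (V j))ᶜ := by
        ext t
        simp [hj]
      rw [h2]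
      exact isClosed_closure.isOpen_compl.preimage ((continuous_Phi hp).comp g_continuous)
  have haE : a ∈ {t : ℝ | ∀ j, j ≠ j0 → Phi p (g t) ∉ closure (V j)} := by
    intro j hj
    rw [hga]
    exact hscl j hj
  have hbE : b ∈ {t : ℝ | ∀ j, j ≠ j0 → Phi p (g t) ∉ closure (V j)} := by
    intro j hj
    rw [hgb]
    exact hscl j hj
  obtain ⟨δ1, hδ1, hδa⟩ := Metric.isOpen_iff.1 hE a haE
  obtain ⟨δ2, hδ2, hδb⟩ := Metric.isOpen_iff.1 hE b hbE
  have hδ : 0 < min δ1 δ2 := lt_min hδ1 hδ2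
  have hnear : ∀ t, (|t - a| < min δ1 δ2 ∨ |t - b| < min δ1 δ2) →
      ∀ j, j ≠ j0 → Phi p (g t) ∉ closure (V j) := by
    rintro t (ht | ht)
    · exact hδa (by
        rw [Metric.mem_ball, Real.dist_eq]
        exact ht.trans_le (min_le_left _ _))
    · exact hδb (by
        rw [Metric.mem_ball, Real.dist_eq]
        exact ht.trans_le (min_le_right _ _))
  obtain ⟨n, B, s', i1, hBo, hBU, hBr, hBcov, hBord, hBone, hBnear, hs', hs'B, hs'cl⟩ :=
    arcs (Phi p) (continuous_Phi hp) Phi_injective isOpen_Phi_Ioo U hU hcov hab hδ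
  have hcl : IsClosed (Phi p '' Icc a b) := (isCompact_Icc.image (continuous_Phi hp)).isClosed
  obtain ⟨V', hV'⟩ : ∃ V' : J ⊕ Fin (n + 1) → Set (XX p),
      V' = Sum.elim (fun j => (Phi p '' Icc a b)ᶜ ∩ shift ⁻¹' V j) B := ⟨_, rfl⟩
  -- the two families meet only near the ends
  have H0 : ∀ x (i' : J) k', x ∈ V' (Sum.inl i') → x ∈ V' (Sum.inr k') →
      ∃ t, x = Phi p t ∧ t ∉ Icc a b := by
    intro x i' k' hx1 hx2
    rw [hV'] at hx1 hx2
    obtain ⟨t, rfl⟩ := hBr k' hx2
    exact ⟨t, rfl, fun ht => hx1.1 ⟨t, ht, rfl⟩⟩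
  have H1 : ∀ x (i' : J) k', x ∈ V' (Sum.inl i') → x ∈ V' (Sum.inr k') → i' = j0 := by
    intro x i' k' hx1 hx2
    obtain ⟨t, rfl, ht⟩ := H0 x i' k' hx1 hx2
    rw [hV'] at hx1 hx2
    by_contra hcon
    refine hnear t (hBnear t k' ht hx2) i' hcon (subset_closure ?_)
    rw [← shift_Phi]
    exact hx1.2
  have H2 : ∀ x (i' : J) k' l', x ∈ V' (Sum.inl i') → x ∈ V' (Sum.inr k') →
      x ∈ V' (Sum.inr l') → k' = l' := by
    intro x i' k' l' hx1 hx2 hx3
    obtain ⟨t, rfl, ht⟩ := H0 x i' k' hx1 hx2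
    rw [hV'] at hx2 hx3
    exact hBone t k' l' ht hx2 hx3
  refine ⟨J ⊕ Fin (n + 1), inferInstance, V', s', Sum.inr i1, ?_, ?_, ?_, ?_, ?_, ?_⟩
  · rintro (j | i)
    · rw [hV']
      exact hcl.isOpen_compl.inter ((hVo j).preimage continuous_shift)
    · rw [hV']
      exact hBo i
  · rw [eq_univ_iff_forall]
    intro x
    by_cases hx : x ∈ Phi p '' Icc a b
    · obtain ⟨i, hi⟩ := mem_iUnion.1 (hBcov hx)
      exact mem_iUnion.2 ⟨Sum.inr i, by rw [hV']; exact hi⟩
    · have h1 : shift x ∈ ⋃ j, V j := by rw [hVcov]; trivial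
      obtain ⟨j, hj⟩ := mem_iUnion.1 h1
      exact mem_iUnion.2 ⟨Sum.inl j, by rw [hV']; exact ⟨hx, hj⟩⟩
  · rintro (j | i)
    · refine ⟨c j, fun x hx => ?_⟩
      rw [hV'] at hx
      refine hT j x (fun h => hx.1 ?_) (subset_closure hx.2)
      obtain ⟨t, ht, rfl⟩ := h
      exact ⟨t, ⟨by linarith [ht.1], by linarith [ht.2]⟩, rfl⟩
    · obtain ⟨e, he⟩ := hBU i
      exact ⟨e, by rw [hV']; exact he⟩
  · intro x F hF
    by_cases hl : ∃ i, Sum.inl i ∈ F
    · obtain ⟨i, hi⟩ := hl
      by_cases hr : ∃ l, Sum.inr l ∈ F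
      · obtain ⟨l, hl⟩ := hr
        have hsub : F ⊆ {Sum.inl j0, Sum.inr l} := by
          intro e he
          rcases e with i' | l'
          · rw [H1 x i' l (hF _ he) (hF _ hl)]
            exact Finset.mem_insert_self _ _
          · rw [H2 x i l' l (hF _ hi) (hF _ he) (hF _ hl)]
            exact Finset.mem_insert_of_mem (Finset.mem_singleton_self _)
        refine (Finset.card_le_card hsub).trans (Finset.card_le_two.trans (by omega))
      · push Not at hr
        have hF' : F = (F.preimage Sum.inl Sum.inl_injective.injOn).map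
            ⟨Sum.inl, Sum.inl_injective⟩ := by
          ext e
          rw [Finset.mem_map]
          constructor
          · intro he
            rcases e with i' | l'
            · exact ⟨i', Finset.mem_preimage.2 he, rfl⟩
            · exact absurd he (hr l')
          · rintro ⟨i', hi', rfl⟩
            exact Finset.mem_preimage.1 hi'
        rw [hF', Finset.card_map]
        refine hVord (shift x) _ fun j hj => ?_
        have h1 := hF _ (Finset.mem_preimage.1 hj)
        rw [hV'] at h1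
        exact h1.2
    · push Not at hl
      by_contra hcon
      push Not at hcon
      obtain ⟨e1, e2, e3, h1, h2, h3, h12, h13, h23⟩ :=
        Finset.two_lt_card_iff.1 (by omega : 2 < F.card)
      rcases e1 with e1 | e1
      · exact hl e1 h1
      rcases e2 with e2 | e2
      · exact hl e2 h2
      rcases e3 with e3 | e3
      · exact hl e3 h3
      have q1 := hF _ h1
      have q2 := hF _ h2
      have q3 := hF _ h3
      rw [hV'] at q1 q2 q3
      rcases hBord x e1 e2 e3 q1 q2 q3 with h | h | h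
      · exact h12 (by rw [h])
      · exact h13 (by rw [h])
      · exact h23 (by rw [h])
  · rw [hV']
    exact hs'B
  · rintro (j | i) hne
    · have h1 : closure (V' (Sum.inl j)) ⊆ (Phi p '' Ioo a b)ᶜ := by
        refine closure_minimal ?_ (isOpen_Phi_Ioo a b).isClosed_compl
        intro x hx hx'
        rw [hV'] at hx
        exact hx.1 (image_mono Ioo_subset_Icc_self hx')
      exact fun h => h1 h ⟨s', hs', rfl⟩
    · rw [hV']
      exact hs'cl i fun h => hne (by rw [h])

theorem claim_all [T2Space K] [CompactSpace K] (hp : Continuous p) {d : ℕ} (hd : 1 ≤ d) (N : ℕ) :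
    Claim p d N := by
  induction N with
  | zero => exact claim_zero hp d
  | succ N ih => exact claim_succ hp hd ih

/-- **Upper bound for the covering dimension.** -/
theorem coveringDimLE_XX [T2Space K] [CompactSpace K] (hp : Continuous p) {d : ℕ} (hd : 1 ≤ d)
    (hK : CoveringDimLE K d) : CoveringDimLE (XX p) d := by
  classical
  haveI := compactSpace_XX hp
  intro m U hU hcov
  -- a cover of `K`
  have hUK : (⋃ i, emb p ⁻¹' U i) = univ := by rw [← preimage_iUnion, hcov, preimage_univ]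
  obtain ⟨k, Q, hQo, hQcov, hQU, hQord⟩ := hK m (fun i => emb p ⁻¹' U i)
    (fun i => (hU i).preimage continuous_emb) hUK
  choose c hc using hQU
  obtain ⟨Q', hQ'cov, hQ'o, hQ'cl⟩ := exists_iUnion_eq_closure_subset hQo
    (fun x => Set.toFinite _) hQcov
  have hBad : IsCompact (⋃ l, (pr ⁻¹' closure (Q' l) \ U (c l))) := by
    refine isCompact_iUnion fun l => IsClosed.isCompact ?_
    exact (isClosed_closure.preimage continuous_pr).sdiff (hU (c l))
  obtain ⟨N, hN⟩ : ∃ N, (⋃ l, (pr ⁻¹' closure (Q' l) \ U (c l))) ⊆ (AN p N)ᶜ := by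
    refine hBad.elim_directed_cover (fun N => (AN p N)ᶜ)
      (fun N => (isClosed_AN N).isOpen_compl) ?_ ?_
    · intro x hx
      obtain ⟨l, hl1, hl2⟩ := mem_iUnion.1 hx
      by_contra hcon
      have h2 : x = emb p (pr x) := by
        apply Subtype.ext
        refine Prod.ext ?_ rfl
        funext n
        show x.1.1 n = ∞
        by_contra h3
        apply hcon
        exact mem_iUnion.2 ⟨n + 1, fun h4 => h3 (h4 n (Nat.lt_succ_self n))⟩
      apply hl2
      rw [h2]
      exact hc l (hQ'cl l hl1)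
    · intro n n'
      refine ⟨max n n', compl_subset_compl.2 fun x hx k hk => hx k (hk.trans_le
        (le_max_left n n')), compl_subset_compl.2 fun x hx k hk => hx k (hk.trans_le
        (le_max_right n n'))⟩
  obtain ⟨G, hG, hAG, hGcl⟩ := normal_exists_closure_subset (isClosed_AN (p := p) N)
    (hBad.isClosed.isOpen_compl) (subset_compl_comm.1 hN)
  obtain ⟨J, hJ, V, s, j0, hVo, hVcov, hVU, hVord, -, -⟩ := claim_all hp hd N m U hU hcov k
    (fun l => G ∩ pr ⁻¹' Q' l) c (fun l => hG.inter ((hQ'o l).preimage continuous_pr))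
    (by
      intro l x hx
      have h1 : x ∈ closure G := closure_mono inter_subset_left hx
      have h2 : x ∈ pr ⁻¹' closure (Q' l) :=
        continuous_pr.closure_preimage_subset _ (closure_mono inter_subset_right hx)
      by_contra h3
      exact hGcl h1 (mem_iUnion.2 ⟨l, h2, h3⟩))
    (by
      intro x F hF
      refine card_ord hQord (pr x) F fun j hj => ?_
      exact hQ'cl j (subset_closure (hF j hj).2))
    (by
      intro x hx
      have h1 : pr x ∈ iUnion Q' := by rw [hQ'cov]; trivial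
      obtain ⟨l, hl⟩ := mem_iUnion.1 h1
      exact mem_iUnion.2 ⟨l, hAG hx, hl⟩)
  refine ⟨Fintype.card J, fun k => V ((Fintype.equivFin J).symm k), fun k => hVo _, ?_,
    fun k => hVU _, ?_⟩
  · rw [eq_univ_iff_forall]
    intro x
    have h2 : x ∈ ⋃ j, V j := by rw [hVcov]; trivial
    obtain ⟨j, hj⟩ := mem_iUnion.1 h2
    exact mem_iUnion.2 ⟨Fintype.equivFin J j, by rw [Equiv.symm_apply_apply]; exact hj⟩
  · refine ord_card fun x F hF => ?_
    have h1 := hVord x (F.map (Fintype.equivFin J).symm.toEmbedding) (by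
      intro j hj
      obtain ⟨i, hi, rfl⟩ := Finset.mem_map.1 hj
      exact hF i hi)
    rwa [Finset.card_map] at h1

/-- **Lower bound for the covering dimension, I.** -/
theorem coveringDimLE_K {d : ℕ} (h : CoveringDimLE (XX p) d) : CoveringDimLE K d := by
  intro m U hU hcov
  obtain ⟨k, V, hVo, hVcov, hVU, hVord⟩ := h m (fun i => pr ⁻¹' U i)
    (fun i => (hU i).preimage continuous_pr) (by rw [← preimage_iUnion, hcov, preimage_univ])
  refine ⟨k, fun j => emb p ⁻¹' V j, fun j => (hVo j).preimage continuous_emb,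
    by rw [← preimage_iUnion, hVcov, preimage_univ], fun j => ?_, fun y => hVord (emb p y)⟩
  obtain ⟨i, hi⟩ := hVU j
  exact ⟨i, fun y hy => hi hy⟩

/-- **Lower bound for the covering dimension, II.** -/
theorem not_zero [T2Space K] (hp : Continuous p) (hs : p '' Icc 0 1 = univ) :
    ¬ CoveringDimLE (XX p) 0 := by
  intro h
  haveI := connected_XX hp hs
  have hne : Phi p 0 ≠ Phi p 1 := fun h => zero_ne_one (Phi_injective h)
  obtain ⟨k, V, hVo, hVcov, hVU, hVord⟩ := h 2 ![{Phi p 0}ᶜ, {Phi p 1}ᶜ] (by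
      intro i
      fin_cases i
      · exact isClosed_singleton.isOpen_compl
      · exact isClosed_singleton.isOpen_compl) (by
      rw [eq_univ_iff_forall]
      intro x
      by_cases hx : x = Phi p 0
      · refine mem_iUnion.2 ⟨1, ?_⟩
        show x ∈ ({Phi p 1}ᶜ : Set (XX p))
        rw [hx]
        exact hne
      · exact mem_iUnion.2 ⟨0, hx⟩)
  have hone : ∀ x i j, x ∈ V i → x ∈ V j → i = j := by
    intro x i j hi hj
    by_contra hij
    have := card_ord hVord x {i, j} (by
      intro l hl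
      rcases Finset.mem_insert.1 hl with rfl | hl
      · exact hi
      · rw [Finset.mem_singleton.1 hl]; exact hj)
    rw [Finset.card_pair hij] at this
    omega
  have h1 : Phi p 0 ∈ ⋃ j, V j := by rw [hVcov]; trivial
  obtain ⟨j, hj⟩ := mem_iUnion.1 h1
  have hclopen : IsClopen (V j) := by
    refine ⟨?_, hVo j⟩
    rw [← isOpen_compl_iff]
    have h2 : (V j)ᶜ = ⋃ (i) (_ : i ≠ j), V i := by
      ext x
      rw [mem_compl_iff, mem_iUnion₂]
      constructor
      · intro hx
        have h3 : x ∈ ⋃ j, V j := by rw [hVcov]; trivial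
        obtain ⟨i, hi⟩ := mem_iUnion.1 h3
        exact ⟨i, fun h4 => hx (h4 ▸ hi), hi⟩
      · rintro ⟨i, hij, hi⟩ hx
        exact hij (hone x i j hi hx)
    rw [h2]
    exact isOpen_iUnion fun i => isOpen_iUnion fun _ => hVo i
  have huniv : V j = univ := hclopen.eq_univ ⟨_, hj⟩
  obtain ⟨i, hi⟩ := hVU j
  rw [huniv] at hi
  fin_cases i
  · exact hi (mem_univ (Phi p 0)) rfl
  · exact hi (mem_univ (Phi p 1)) rfl

end

end Pool.Agent.H34.SCT
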