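import Pool.Agent.H34.SCT.Sep
import Pool.Agent.H34.SCT.Comp

/-!
# Strong computable type of compactifications of the line with connected complements
-/

open Set Topology

namespace Pool.Agent.H34.SCT

theorem reference {X : Type} [TopologicalSpace X] [CompactSpace X] (Φ : ℝ → X) (hc : Continuous Φ)
    (hi : Function.Injective Φ) (ho : ∀ a b, IsOpen (Φ '' Ioo a b))
    (hp : ∀ {a b : ℝ}, a ≤ b → IsPreconnected (Φ '' Ioo a b)ᶜ)
    (J : X → HilbertCube) (hJ : Continuous J) (hJi : Function.Injective J) (t₀ : ℝ) :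
    ∃ W Ep Em : List BallCode,
      (∀ (cp cm : List BallCode) (b : BallCode),
        (∀ v ∈ Ep ++ cp, ∀ v' ∈ Em ++ cm, FD v v') →
        (∀ y ∈ range J, ∃ b' ∈ b :: (W ++ ((Ep ++ cp) ++ (Em ++ cm))), y ∈ ball b') →
        ∃ y ∈ range J, y ∈ ball b) ∧
      (∀ (b : BallCode) (t : ℝ), J (Φ t) ∈ ball b → (t₀ + 3 < t ∨ t < t₀ - 3) →
        ∃ cp cm : List BallCode,
        (∀ v ∈ Ep ++ cp, ∀ v' ∈ Em ++ cm, FD v v') ∧
        (∀ y ∈ range J, ∃ b' ∈ b :: (W ++ ((Ep ++ cp) ++ (Em ++ cm))), y ∈ ball b')) := by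
  have hmem : ∀ a b t : ℝ, J (Φ t) ∈ J '' (Φ '' Ioo a b)ᶜ ↔ t ∉ Ioo a b := by
    intro a b t
    constructor
    · rintro ⟨x, hx, hxe⟩ ht
      have : x = Φ t := hJi hxe
      exact hx (this ▸ ⟨t, ht, rfl⟩)
    · intro ht
      refine ⟨Φ t, ?_, rfl⟩
      rintro ⟨r, hr, hre⟩
      exact ht (hi hre ▸ hr)
  have hcomp : ∀ a b : ℝ, IsCompact (J '' (Φ '' Ioo a b)ᶜ) := fun a b =>
    ((ho a b).isClosed_compl.isCompact).image hJ
  have hcompI : ∀ a b : ℝ, IsCompact ((fun t => J (Φ t)) '' Icc a b) := fun a b =>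
    isCompact_Icc.image (hJ.comp hc)
  -- the set C
  set C := J '' (Φ '' Ioo (t₀ - 2) (t₀ + 2))ᶜ with hC
  have hCclosed : IsClosed C := (hcomp _ _).isClosed
  have hCpre : IsPreconnected C := (hp (by linarith)).image J hJ.continuousOn
  -- the covering W
  obtain ⟨W, hW1, hW2⟩ := cover (K := (fun t => J (Φ t)) '' Icc (t₀ - 1) (t₀ + 1)) (G := Cᶜ)
    (hcompI _ _) hCclosed.isOpen_compl (by
      rintro y ⟨t, ht, rfl⟩ hy
      exact (hmem _ _ t).1 hy ⟨by linarith [ht.1], by linarith [ht.2]⟩) one_pos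
  -- separation near e+ and e-
  obtain ⟨η₁, hη₁, hs₁⟩ := sep (K := {J (Φ (t₀ + 2))})
    (L := J '' (Φ '' Ioo (t₀ - 1) (t₀ + 3))ᶜ) isCompact_singleton (hcomp _ _) (by
      rw [disjoint_singleton_left]
      intro h
      exact (hmem _ _ _).1 h ⟨by linarith, by linarith⟩)
  obtain ⟨η₂, hη₂, hs₂⟩ := sep (K := J '' (Φ '' Ioo (t₀ - 3) (t₀ + 1))ᶜ)
    (L := {J (Φ (t₀ - 2))}) (hcomp _ _) isCompact_singleton (by
      rw [disjoint_singleton_right]
      intro h
      exact (hmem _ _ _).1 h ⟨by linarith, by linarith⟩)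
  have hη : 0 < min η₁ η₂ := lt_min hη₁ hη₂
  obtain ⟨Ep, hEp1, hEp2⟩ := cover (K := {J (Φ (t₀ + 2))}) (G := univ) isCompact_singleton
    isOpen_univ (subset_univ _) hη
  obtain ⟨Em, hEm1, hEm2⟩ := cover (K := {J (Φ (t₀ - 2))}) (G := univ) isCompact_singleton
    isOpen_univ (subset_univ _) hη
  refine ⟨W, Ep, Em, ?_, ?_⟩
  · -- soundness
    intro cp cm b hFD hcov
    by_contra hno
    push_neg at hno
    set P : Set HilbertCube := ⋃ v ∈ Ep ++ cp, ball v with hP
    set M : Set HilbertCube := ⋃ v ∈ Em ++ cm, ball v with hM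
    have hPo : IsOpen P := isOpen_biUnion fun v _ => isOpen_ball v
    have hMo : IsOpen M := isOpen_biUnion fun v _ => isOpen_ball v
    have hPM : ∀ y, y ∈ P → y ∈ M → False := by
      intro y hyP hyM
      simp only [hP, hM, mem_iUnion, exists_prop] at hyP hyM
      obtain ⟨v, hv, hyv⟩ := hyP
      obtain ⟨v', hv', hyv'⟩ := hyM
      exact disjoint_left.1 (FD_disjoint (hFD v hv v' hv')) hyv hyv'
    have hsub : C ⊆ P ∪ M := by
      intro y hy
      have hyJ : y ∈ range J := by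
        obtain ⟨x, _, rfl⟩ := hy
        exact ⟨x, rfl⟩
      obtain ⟨b', hb', hyb'⟩ := hcov y hyJ
      rcases List.mem_cons.1 hb' with rfl | hb'
      · exact absurd hyb' (hno y hyJ)
      rcases List.mem_append.1 hb' with hb' | hb'
      · exact absurd hy ((hW2 b' hb').1 hyb')
      rcases List.mem_append.1 hb' with hb' | hb'
      · left
        simp only [hP, mem_iUnion, exists_prop]
        exact ⟨b', hb', hyb'⟩
      · right
        simp only [hM, mem_iUnion, exists_prop]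
        exact ⟨b', hb', hyb'⟩
    have h1 : (C ∩ P).Nonempty := by
      obtain ⟨v, hv, hyv⟩ := hEp1 _ rfl
      refine ⟨J (Φ (t₀ + 2)), (hmem _ _ _).2 (fun h => by linarith [h.2]), ?_⟩
      simp only [hP, mem_iUnion, exists_prop]
      exact ⟨v, List.mem_append_left _ hv, hyv⟩
    have h2 : (C ∩ M).Nonempty := by
      obtain ⟨v, hv, hyv⟩ := hEm1 _ rfl
      refine ⟨J (Φ (t₀ - 2)), (hmem _ _ _).2 (fun h => by linarith [h.1]), ?_⟩
      simp only [hM, mem_iUnion, exists_prop]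
      exact ⟨v, List.mem_append_left _ hv, hyv⟩
    obtain ⟨y, _, hyP, hyM⟩ := hCpre P M hPo hMo hsub h1 h2
    exact hPM y hyP hyM
  · -- completeness
    intro b t htb ht
    -- an interval around t inside the ball
    have hopen : IsOpen ((fun r => J (Φ r)) ⁻¹' ball b) :=
      (isOpen_ball b).preimage (hJ.comp hc)
    obtain ⟨ε₀, hε₀, hball⟩ := Metric.isOpen_iff.1 hopen t htb
    -- general finishing step
    have finish : ∀ Kp Km : Set HilbertCube, IsCompact Kp → IsCompact Km → Disjoint Kp Km →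
        Km ⊆ J '' (Φ '' Ioo (t₀ - 1) (t₀ + 3))ᶜ → Kp ⊆ J '' (Φ '' Ioo (t₀ - 3) (t₀ + 1))ᶜ →
        (∀ y ∈ range J, y ∈ (fun t => J (Φ t)) '' Icc (t₀ - 1) (t₀ + 1) ∨ y ∈ Kp ∨ y ∈ Km ∨
          y ∈ ball b) →
        ∃ cp cm : List BallCode,
        (∀ v ∈ Ep ++ cp, ∀ v' ∈ Em ++ cm, FD v v') ∧
        (∀ y ∈ range J, ∃ b' ∈ b :: (W ++ ((Ep ++ cp) ++ (Em ++ cm))), y ∈ ball b') := by
      intro Kp Km hKp hKm hdis hKm' hKp' hall
      obtain ⟨η₃, hη₃, hs₃⟩ := sep hKp hKm hdis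
      have hη' : 0 < min (min η₁ η₂) η₃ := lt_min hη hη₃
      obtain ⟨cp, hcp1, hcp2⟩ := cover hKp isOpen_univ (subset_univ _) hη'
      obtain ⟨cm, hcm1, hcm2⟩ := cover hKm isOpen_univ (subset_univ _) hη'
      have l1 : min (min η₁ η₂) η₃ ≤ η₁ := (min_le_left _ _).trans (min_le_left _ _)
      have l2 : min (min η₁ η₂) η₃ ≤ η₂ := (min_le_left _ _).trans (min_le_right _ _)
      have l3 : min (min η₁ η₂) η₃ ≤ η₃ := min_le_right _ _
      have k1 : min η₁ η₂ ≤ η₁ := min_le_left _ _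
      have k2 : min η₁ η₂ ≤ η₂ := min_le_right _ _
      refine ⟨cp, cm, ?_, ?_⟩
      · intro v hv v' hv'
        rcases List.mem_append.1 hv with hv | hv
        · obtain ⟨_, hvr, x, hx, hvx⟩ := hEp2 v hv
          rcases List.mem_append.1 hv' with hv' | hv'
          · obtain ⟨_, hvr', x', hx', hvx'⟩ := hEm2 v' hv'
            refine hs₁ v v' (hvr.trans k1) (hvr'.trans k1) ⟨x, hx, hvx.trans k1⟩
              ⟨x', ?_, hvx'.trans k1⟩
            rw [mem_singleton_iff.1 hx']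
            exact (hmem _ _ _).2 (fun h => by linarith [h.1])
          · obtain ⟨_, hvr', x', hx', hvx'⟩ := hcm2 v' hv'
            exact hs₁ v v' (hvr.trans k1) (hvr'.trans l1) ⟨x, hx, hvx.trans k1⟩
              ⟨x', hKm' hx', hvx'.trans l1⟩
        · obtain ⟨_, hvr, x, hx, hvx⟩ := hcp2 v hv
          rcases List.mem_append.1 hv' with hv' | hv'
          · obtain ⟨_, hvr', x', hx', hvx'⟩ := hEm2 v' hv'
            exact hs₂ v v' (hvr.trans l2) (hvr'.trans k2) ⟨x, hKp' hx, hvx.trans l2⟩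
              ⟨x', hx', hvx'.trans k2⟩
          · obtain ⟨_, hvr', x', hx', hvx'⟩ := hcm2 v' hv'
            exact hs₃ v v' (hvr.trans l3) (hvr'.trans l3) ⟨x, hx, hvx.trans l3⟩
              ⟨x', hx', hvx'.trans l3⟩
      · intro y hy
        rcases hall y hy with h | h | h | h
        · obtain ⟨v, hv, hyv⟩ := hW1 y h
          exact ⟨v, by simp [hv], hyv⟩
        · obtain ⟨v, hv, hyv⟩ := hcp1 y h
          exact ⟨v, by simp [hv], hyv⟩
        · obtain ⟨v, hv, hyv⟩ := hcm1 y h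
          exact ⟨v, by simp [hv], hyv⟩
        · exact ⟨b, by simp, h⟩
    rcases ht with ht | ht
    · -- t > t₀ + 3
      obtain ⟨ε, hε, hεε₀, hεt⟩ : ∃ ε : ℝ, 0 < ε ∧ ε ≤ ε₀ ∧ t₀ + 3 < t - ε := by
        refine ⟨min ε₀ ((t - (t₀ + 3)) / 2), lt_min hε₀ (by linarith), min_le_left _ _, ?_⟩
        linarith [min_le_right ε₀ ((t - (t₀ + 3)) / 2)]
      have hin : ∀ r, t - ε < r → r < t + ε → J (Φ r) ∈ ball b := by
        intro r hr1 hr2
        apply hball
        rw [Metric.mem_ball, Real.dist_eq, abs_lt]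
        constructor <;> linarith
      refine finish ((fun t => J (Φ t)) '' Icc (t₀ + 1) (t - ε))
        (J '' (Φ '' Ioo (t₀ - 1) (t + ε))ᶜ) (hcompI _ _) (hcomp _ _) ?_ ?_ ?_ ?_
      · rw [disjoint_left]
        rintro y ⟨r, hr, rfl⟩ hy
        exact (hmem _ _ r).1 hy ⟨by linarith [hr.1], by linarith [hr.2]⟩
      · apply image_mono
        apply compl_subset_compl.2
        apply image_mono
        apply Ioo_subset_Ioo_right
        linarith
      · rintro y ⟨r, hr, rfl⟩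
        exact (hmem _ _ r).2 (fun h => by linarith [h.2, hr.1])
      · rintro y ⟨x, rfl⟩
        by_cases hx : x ∈ Φ '' Ioo (t₀ - 1) (t + ε)
        · obtain ⟨r, hr, rfl⟩ := hx
          by_cases h1 : r ≤ t₀ + 1
          · exact Or.inl ⟨r, ⟨hr.1.le, h1⟩, rfl⟩
          · by_cases h2 : r ≤ t - ε
            · exact Or.inr (Or.inl ⟨r, ⟨by linarith, h2⟩, rfl⟩)
            · exact Or.inr (Or.inr (Or.inr (hin r (by linarith) hr.2)))
        · exact Or.inr (Or.inr (Or.inl ⟨x, hx, rfl⟩))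
    · -- t < t₀ - 3
      obtain ⟨ε, hε, hεε₀, hεt⟩ : ∃ ε : ℝ, 0 < ε ∧ ε ≤ ε₀ ∧ t + ε < t₀ - 3 := by
        refine ⟨min ε₀ (((t₀ - 3) - t) / 2), lt_min hε₀ (by linarith), min_le_left _ _, ?_⟩
        linarith [min_le_right ε₀ (((t₀ - 3) - t) / 2)]
      have hin : ∀ r, t - ε < r → r < t + ε → J (Φ r) ∈ ball b := by
        intro r hr1 hr2
        apply hball
        rw [Metric.mem_ball, Real.dist_eq, abs_lt]
        constructor <;> linarith
      refine finish (J '' (Φ '' Ioo (t - ε) (t₀ + 1))ᶜ)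
        ((fun t => J (Φ t)) '' Icc (t + ε) (t₀ - 1)) (hcomp _ _) (hcompI _ _) ?_ ?_ ?_ ?_
      · rw [disjoint_right]
        rintro y ⟨r, hr, rfl⟩ hy
        exact (hmem _ _ r).1 hy ⟨by linarith [hr.1], by linarith [hr.2]⟩
      · rintro y ⟨r, hr, rfl⟩
        exact (hmem _ _ r).2 (fun h => by linarith [h.1, hr.2])
      · apply image_mono
        apply compl_subset_compl.2
        apply image_mono
        apply Ioo_subset_Ioo_left
        linarith
      · rintro y ⟨x, rfl⟩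
        by_cases hx : x ∈ Φ '' Ioo (t - ε) (t₀ + 1)
        · obtain ⟨r, hr, rfl⟩ := hx
          by_cases h1 : t₀ - 1 ≤ r
          · exact Or.inl ⟨r, ⟨h1, hr.2.le⟩, rfl⟩
          · by_cases h2 : t + ε ≤ r
            · exact Or.inr (Or.inr (Or.inl ⟨r, ⟨h2, by linarith⟩, rfl⟩))
            · exact Or.inr (Or.inr (Or.inr (hin r hr.1 (by linarith))))
        · exact Or.inr (Or.inl ⟨x, hx, rfl⟩)

/-- A compact space with a dense, injectively and openly embedded line all of whose intervals have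
connected complement has strong computable type. -/
theorem sct_of_line {X : Type} [TopologicalSpace X] [CompactSpace X] (Φ : ℝ → X)
    (hc : Continuous Φ) (hi : Function.Injective Φ) (hd : DenseRange Φ)
    (ho : ∀ a b, IsOpen (Φ '' Ioo a b))
    (hp : ∀ {a b : ℝ}, a ≤ b → IsPreconnected (Φ '' Ioo a b)ᶜ) : StrongComputableType X := by
  rintro O Y ⟨j⟩ hY
  refine ⟨hY, ?_⟩
  set J : X → HilbertCube := fun x => (j x : HilbertCube) with hJdef
  have hJ : Continuous J := continuous_subtype_val.comp j.continuous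
  have hJi : Function.Injective J := fun x y h => j.injective (Subtype.ext h)
  have hrange : range J = Y := by
    ext y
    constructor
    · rintro ⟨x, rfl⟩
      exact (j x).2
    · intro hy
      exact ⟨j.symm ⟨y, hy⟩, by simp [hJdef]⟩
  choose W Ep Em hsound hcomplete using
    fun t₀ : ℝ => reference Φ hc hi ho (fun h => hp h) J hJ hJi t₀
  have key := CEIn.main hY (fun i => W (cond i 0 10)) (fun i => Ep (cond i 0 10))
    (fun i => Em (cond i 0 10))
  convert key using 1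
  ext b
  constructor
  · rintro ⟨y, hyY, hyb⟩
    rw [← hrange] at hyY
    obtain ⟨x, rfl⟩ := hyY
    -- density
    obtain ⟨t, ht⟩ : ∃ t, J (Φ t) ∈ ball b := by
      have hop : IsOpen (J ⁻¹' ball b) := (isOpen_ball b).preimage hJ
      obtain ⟨_, hz1, t, rfl⟩ := hd.inter_open_nonempty _ hop ⟨x, hyb⟩
      exact ⟨t, hz1⟩
    have : ∃ i : Bool, ((cond i 0 10 : ℝ) + 3 < t ∨ t < (cond i 0 10 : ℝ) - 3) := by
      by_cases h : t ≤ 3
      · exact ⟨false, Or.inr (by simp only [cond_false]; linarith)⟩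
      · exact ⟨true, Or.inl (by simp only [cond_true]; linarith)⟩
    obtain ⟨i, hi'⟩ := this
    obtain ⟨cp, cm, h1, h2⟩ := hcomplete _ b t ht hi'
    refine ⟨(i, (cp, cm)), h1, ?_⟩
    intro y hy
    exact h2 y (hrange ▸ hy)
  · rintro ⟨⟨i, cp, cm⟩, h1, h2⟩
    obtain ⟨y, hy, hyb⟩ := hsound _ cp cm b h1 (fun y hy => h2 y (hrange ▸ hy))
    exact ⟨y, hrange ▸ hy, hyb⟩

end Pool.Agent.H34.SCT
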