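import Pool.Agent.H34.SCT.Cube
import Pool.Agent.H34.SCT.Main

/-!
# Assembling
-/

set_option autoImplicit false

open Set Topology OnePoint

namespace Pool.Agent.H34.SCT

section

variable {K : Type} [TopologicalSpace K] {p : ℝ → K}

theorem coord_iterate (y : XX p) (n : ℕ) : (iota^[n] y).1.1 n = y.1.1 0 := by
  induction n with
  | zero => rfl
  | succ n ih =>
    rw [Function.iterate_succ_apply']
    exact ih

theorem AN_eq_range (n : ℕ) : AN p n = range (iota^[n]) := by
  induction n with
  | zero =>
    rw [Function.iterate_zero, range_id, eq_univ_iff_forall]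
    exact fun x n hn => absurd hn (Nat.not_lt_zero n)
  | succ n ih =>
    ext x
    constructor
    · intro hx
      have h0 : x = iota (shift x) := eq_iota (hx 0 (Nat.succ_pos n))
      have h1 : shift x ∈ AN p n := fun m hm => hx (m + 1) (by omega)
      rw [ih] at h1
      obtain ⟨y, hy⟩ := h1
      refine ⟨y, ?_⟩
      rw [Function.iterate_succ_apply', hy, ← h0]
    · rintro ⟨y, rfl⟩ m hm
      exact iota_iterate y (n + 1) m hm

theorem AN_ssubset (n : ℕ) : AN p (n + 1) ⊂ AN p n := by
  have hsub : AN p (n + 1) ⊆ AN p n := fun x hx m hm => hx m (by omega)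
  rw [ssubset_iff_of_subset hsub]
  refine ⟨iota^[n] (Phi p 0), ?_, ?_⟩
  · rw [AN_eq_range]; exact ⟨_, rfl⟩
  · intro h
    have h1 := h n (Nat.lt_succ_self n)
    rw [coord_iterate] at h1
    exact OnePoint.coe_ne_infty _ h1

theorem iInter_AN : ⋂ n, AN p n = range (emb p) := by
  ext x
  rw [mem_iInter]
  constructor
  · intro hx
    refine ⟨pr x, ?_⟩
    apply Subtype.ext
    refine Prod.ext ?_ rfl
    funext n
    exact (hx (n + 1) n (Nat.lt_succ_self n)).symm
  · rintro ⟨y, rfl⟩ n m _
    rfl

theorem homeo_AN [T2Space K] [CompactSpace K] (hp : Continuous p) (n : ℕ) :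
    Nonempty (XX p ≃ₜ AN p n) := by
  haveI := compactSpace_XX hp
  rw [AN_eq_range]
  have h := (continuous_iota (p := p)).iterate n
  have h2 := h.isClosedEmbedding (iota_injective.iterate n)
  exact ⟨h2.isEmbedding.toHomeomorph⟩

theorem closed_emb [T2Space K] [CompactSpace K] : IsClosedEmbedding (emb p) :=
  (continuous_emb (p := p)).isClosedEmbedding
    (Function.LeftInverse.injective (g := pr) pr_emb)

theorem sct_XX [T2Space K] [CompactSpace K] (hp : Continuous p) (hs : p '' Icc 0 1 = univ) :
    StrongComputableType (XX p) := by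
  haveI := compactSpace_XX hp
  exact sct_of_line (Phi p) (continuous_Phi hp) Phi_injective (denseRange_Phi hs) isOpen_Phi_Ioo
    fun _ => isPreconnected_compl hp hs

theorem dim_XX [T2Space K] [CompactSpace K] (hp : Continuous p) (hs : p '' Icc 0 1 = univ)
    (d : ℕ) : CoveringDimLE (XX p) d ↔ 1 ≤ d ∧ CoveringDimLE K d := by
  constructor
  · intro h
    refine ⟨?_, coveringDimLE_K h⟩
    rcases Nat.eq_zero_or_pos d with h0 | h0
    · rw [h0] at h
      exact absurd h (not_zero hp hs)
    · exact h0
  · rintro ⟨h1, h2⟩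
    exact coveringDimLE_XX hp h1 h2

end

theorem clamp_of_mem {t : ℝ} (h : t ∈ Icc (0 : ℝ) 1) : clamp t = t := by
  unfold clamp
  rw [min_eq_left h.2, max_eq_right h.1]

theorem continuous_clamp : Continuous clamp := by
  unfold clamp; fun_prop

theorem extend {K : Type} [TopologicalSpace K] {p : ℝ → K} (hp : ContinuousOn p (Icc 0 1))
    (hs : p '' Icc 0 1 = univ) : Continuous (p ∘ clamp) ∧ (p ∘ clamp) '' Icc 0 1 = univ ∧
      CompactSpace K := by
  refine ⟨hp.comp_continuous continuous_clamp clamp_mem, ?_, ⟨?_⟩⟩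
  · rw [← hs]
    refine image_congr fun t ht => ?_
    show p (clamp t) = p t
    rw [clamp_of_mem ht]
  · rw [← hs]
    exact isCompact_Icc.image_of_continuousOn hp

end Pool.Agent.H34.SCT
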