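import Pool.Agent.H34.SCT.Defs

/-!
# Rational balls in the Hilbert cube (MP_975a4b_lc)
-/

open Set Topology Filter

namespace Pool.Agent.H34.SCT

theorem coord_le (x y : HilbertCube) (n : ℕ) : |(x n : ℝ) - (y n : ℝ)| ≤ 1 := by
  have h1 := (x n).2.1
  have h2 := (x n).2.2
  have h3 := (y n).2.1
  have h4 := (y n).2.2
  rw [abs_le]
  constructor <;> linarith

theorem term_nonneg (x y : HilbertCube) (n : ℕ) :
    0 ≤ (1 / 2 : ℝ) ^ n * |(x n : ℝ) - (y n : ℝ)| := by positivity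

theorem term_le (x y : HilbertCube) (n : ℕ) :
    (1 / 2 : ℝ) ^ n * |(x n : ℝ) - (y n : ℝ)| ≤ (1 / 2 : ℝ) ^ n :=
  mul_le_of_le_one_right (by positivity) (coord_le x y n)

theorem summable_term (x y : HilbertCube) :
    Summable fun n : ℕ => (1 / 2 : ℝ) ^ n * |(x n : ℝ) - (y n : ℝ)| :=
  Summable.of_nonneg_of_le (term_nonneg x y) (term_le x y) summable_geometric_two

theorem qdist_nonneg (x y : HilbertCube) : 0 ≤ qdist x y := tsum_nonneg (term_nonneg x y)

theorem qdist_comm (x y : HilbertCube) : qdist x y = qdist y x := by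
  unfold qdist
  congr 1
  funext n
  rw [abs_sub_comm]

theorem term_le_qdist (x y : HilbertCube) (n : ℕ) :
    (1 / 2 : ℝ) ^ n * |(x n : ℝ) - (y n : ℝ)| ≤ qdist x y :=
  (summable_term x y).le_tsum n (fun m _ => term_nonneg x y m)

theorem qdist_triangle (x y z : HilbertCube) : qdist x z ≤ qdist x y + qdist y z := by
  unfold qdist
  rw [← (summable_term x y).tsum_add (summable_term y z)]
  refine (summable_term x z).tsum_le_tsum (fun n => ?_)
    ((summable_term x y).add (summable_term y z))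
  rw [← mul_add]
  exact mul_le_mul_of_nonneg_left (abs_sub_le _ _ _) (by positivity)

theorem qdist_pos {x y : HilbertCube} (h : x ≠ y) : 0 < qdist x y := by
  obtain ⟨n, hn⟩ := Function.ne_iff.1 h
  refine lt_of_lt_of_le ?_ (term_le_qdist x y n)
  have h1 : (x n : ℝ) - (y n : ℝ) ≠ 0 := by
    intro h0
    exact hn (Subtype.ext (sub_eq_zero.1 h0))
  positivity

theorem continuous_qdist : Continuous fun p : HilbertCube × HilbertCube => qdist p.1 p.2 := by
  unfold qdist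
  refine continuous_tsum (u := fun n : ℕ => (1 / 2 : ℝ) ^ n) (fun n => ?_) summable_geometric_two
    (fun n p => ?_)
  · have h1 : Continuous fun p : HilbertCube × HilbertCube => (p.1 n : ℝ) :=
      continuous_subtype_val.comp ((continuous_apply n).comp continuous_fst)
    have h2 : Continuous fun p : HilbertCube × HilbertCube => (p.2 n : ℝ) :=
      continuous_subtype_val.comp ((continuous_apply n).comp continuous_snd)
    exact continuous_const.mul (h1.sub h2).abs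
  · rw [Real.norm_eq_abs, abs_of_nonneg (term_nonneg p.1 p.2 n)]
    exact term_le p.1 p.2 n

theorem continuous_qdist_right (x : HilbertCube) : Continuous fun y => qdist x y :=
  continuous_qdist.comp (continuous_const.prodMk continuous_id)

theorem isOpen_ball (b : BallCode) : IsOpen (ball b) :=
  isOpen_lt (continuous_qdist_right _) continuous_const

theorem rad_pos (b : BallCode) : 0 < rad b := by unfold rad; positivity

theorem half_iff (n : ℕ) (b b' : BallCode) :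
    Half n b b' ↔ rad b + rad b' ≤ (1 / 2 : ℝ) ^ n * ((centre b n : ℝ) - (centre b' n : ℝ)) := by
  have e1 : (centre b n : ℝ) = ((min (b.1.getD n 0) (b.2.1 + 1) : ℕ) : ℝ) / ((b.2.1 : ℝ) + 1) := rfl
  have e2 : (centre b' n : ℝ) =
      ((min (b'.1.getD n 0) (b'.2.1 + 1) : ℕ) : ℝ) / ((b'.2.1 : ℝ) + 1) := rfl
  rw [e1, e2]
  unfold Half rad
  generalize min (b.1.getD n 0) (b.2.1 + 1) = A
  generalize min (b'.1.getD n 0) (b'.2.1 + 1) = A'
  have hQ : (0 : ℝ) < (b.2.1 : ℝ) + 1 := by positivity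
  have hQ' : (0 : ℝ) < (b'.2.1 : ℝ) + 1 := by positivity
  have hS : (0 : ℝ) < (b.2.2.2 : ℝ) + 1 := by positivity
  have hS' : (0 : ℝ) < (b'.2.2.2 : ℝ) + 1 := by positivity
  have h2 : (0 : ℝ) < 2 ^ n := by positivity
  have e3 : ((b.2.2.1 : ℝ) + 1) / ((b.2.2.2 : ℝ) + 1) + ((b'.2.2.1 : ℝ) + 1) / ((b'.2.2.2 : ℝ) + 1)
      = (((b.2.2.1 : ℝ) + 1) * ((b'.2.2.2 : ℝ) + 1) + ((b'.2.2.1 : ℝ) + 1) * ((b.2.2.2 : ℝ) + 1)) /
        (((b.2.2.2 : ℝ) + 1) * ((b'.2.2.2 : ℝ) + 1)) := by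
    field_simp
  have e4 : (1 / 2 : ℝ) ^ n * ((A : ℝ) / ((b.2.1 : ℝ) + 1) - (A' : ℝ) / ((b'.2.1 : ℝ) + 1)) =
      ((A : ℝ) * ((b'.2.1 : ℝ) + 1) - (A' : ℝ) * ((b.2.1 : ℝ) + 1)) /
        (2 ^ n * (((b.2.1 : ℝ) + 1) * ((b'.2.1 : ℝ) + 1))) := by
    rw [one_div, inv_pow]
    field_simp
  rw [e3, e4, div_le_div_iff₀ (by positivity) (by positivity)]
  constructor
  · intro h
    have h' : ((2 ^ n * ((b.2.1 + 1) * (b'.2.1 + 1)) *
      ((b.2.2.1 + 1) * (b'.2.2.2 + 1) + (b'.2.2.1 + 1) * (b.2.2.2 + 1)) +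
      A' * (b.2.1 + 1) * ((b.2.2.2 + 1) * (b'.2.2.2 + 1)) : ℕ) : ℝ) ≤
      ((A * (b'.2.1 + 1) * ((b.2.2.2 + 1) * (b'.2.2.2 + 1)) : ℕ) : ℝ) := by exact_mod_cast h
    push_cast at h'
    linarith
  · intro h
    have h' : ((2 ^ n * ((b.2.1 + 1) * (b'.2.1 + 1)) *
      ((b.2.2.1 + 1) * (b'.2.2.2 + 1) + (b'.2.2.1 + 1) * (b.2.2.2 + 1)) +
      A' * (b.2.1 + 1) * ((b.2.2.2 + 1) * (b'.2.2.2 + 1)) : ℕ) : ℝ) ≤
      ((A * (b'.2.1 + 1) * ((b.2.2.2 + 1) * (b'.2.2.2 + 1)) : ℕ) : ℝ) := by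
      push_cast
      linarith
    exact_mod_cast h'

theorem half_disjoint {b b' : BallCode} {n : ℕ} (h : Half n b b') :
    Disjoint (ball b) (ball b') := by
  rw [Set.disjoint_left]
  intro z hz hz'
  have h1 := (half_iff n b b').1 h
  have h2 := term_le_qdist (centre b) z n
  have h3 := term_le_qdist (centre b') z n
  have hz1 : qdist (centre b) z < rad b := hz
  have hz2 : qdist (centre b') z < rad b' := hz'
  have h4 : (1 / 2 : ℝ) ^ n * ((centre b n : ℝ) - (centre b' n : ℝ)) ≤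
      (1 / 2 : ℝ) ^ n * |(centre b n : ℝ) - (z n : ℝ)| +
      (1 / 2 : ℝ) ^ n * |(centre b' n : ℝ) - (z n : ℝ)| := by
    rw [← mul_add]
    apply mul_le_mul_of_nonneg_left _ (by positivity)
    have h5 := le_abs_self ((centre b n : ℝ) - (z n : ℝ))
    have h6 := neg_abs_le ((centre b' n : ℝ) - (z n : ℝ))
    linarith
  linarith

/-- formally disjoint balls are disjoint -/
theorem FD_disjoint {b b' : BallCode} (h : FD b b') : Disjoint (ball b) (ball b') := by
  obtain ⟨n, _, h | h⟩ := h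
  · exact half_disjoint h
  · exact (half_disjoint h).symm

/-- small balls centred near disjoint compact sets are formally disjoint -/
theorem sep {K L : Set HilbertCube} (hK : IsCompact K) (hL : IsCompact L) (hd : Disjoint K L) :
    ∃ η : ℝ, 0 < η ∧ ∀ b b' : BallCode, rad b ≤ η → rad b' ≤ η →
      (∃ x ∈ K, qdist (centre b) x ≤ η) → (∃ y ∈ L, qdist (centre b') y ≤ η) → FD b b' := by
  let W : ℕ → Set (HilbertCube × HilbertCube) := fun N =>
    {p | ∃ n, n < N ∧ 1 / ((N : ℝ) + 1) < (1 / 2 : ℝ) ^ n * |(p.1 n : ℝ) - (p.2 n : ℝ)|}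
  have hWo : ∀ N, IsOpen (W N) := by
    intro N
    have e : W N = ⋃ n, ⋃ (_ : n < N), {p : HilbertCube × HilbertCube |
        1 / ((N : ℝ) + 1) < (1 / 2 : ℝ) ^ n * |(p.1 n : ℝ) - (p.2 n : ℝ)|} := by
      ext p
      simp only [W, mem_iUnion, Set.mem_ofPred_eq, exists_prop]
    rw [e]
    refine isOpen_iUnion fun n => isOpen_iUnion fun _ => ?_
    have h1 : Continuous fun p : HilbertCube × HilbertCube => (p.1 n : ℝ) :=
      continuous_subtype_val.comp ((continuous_apply n).comp continuous_fst)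
    have h2 : Continuous fun p : HilbertCube × HilbertCube => (p.2 n : ℝ) :=
      continuous_subtype_val.comp ((continuous_apply n).comp continuous_snd)
    exact isOpen_lt continuous_const (continuous_const.mul (h1.sub h2).abs)
  have hmono : Monotone W := by
    intro N M hNM p hp
    obtain ⟨n, hn, h⟩ := hp
    refine ⟨n, hn.trans_le hNM, lt_of_le_of_lt ?_ h⟩
    apply one_div_le_one_div_of_le (by positivity)
    have : (N : ℝ) ≤ M := by exact_mod_cast hNM
    linarith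
  have hcov : K ×ˢ L ⊆ ⋃ N, W N := by
    rintro ⟨x, y⟩ ⟨hx, hy⟩
    have hne : x ≠ y := by
      rintro rfl
      exact Set.disjoint_left.1 hd hx hy
    obtain ⟨n, hn⟩ := Function.ne_iff.1 hne
    have h1 : (x n : ℝ) - (y n : ℝ) ≠ 0 := by
      intro h0
      exact hn (Subtype.ext (sub_eq_zero.1 h0))
    have h2 : 0 < (1 / 2 : ℝ) ^ n * |(x n : ℝ) - (y n : ℝ)| := by positivity
    obtain ⟨k, hk⟩ := exists_nat_one_div_lt h2
    refine mem_iUnion.2 ⟨max k (n + 1), n, by omega, lt_of_le_of_lt ?_ hk⟩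
    apply one_div_le_one_div_of_le (by positivity)
    have : (k : ℝ) ≤ ((max k (n + 1) : ℕ) : ℝ) := by exact_mod_cast le_max_left k (n + 1)
    linarith
  obtain ⟨N, hN⟩ := (hK.prod hL).elim_directed_cover W hWo hcov hmono.directed_le
  have hN1 : (0 : ℝ) < (N : ℝ) + 1 := by positivity
  refine ⟨1 / (4 * ((N : ℝ) + 1)), by positivity, ?_⟩
  set η : ℝ := 1 / (4 * ((N : ℝ) + 1)) with hη
  have h4η : 1 / ((N : ℝ) + 1) = 4 * η := by rw [hη]; field_simp
  have hηpos : 0 < η := by rw [hη]; positivity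
  rintro b b' hb hb' ⟨x, hx, hbx⟩ ⟨y, hy, hby⟩
  obtain ⟨n, hn, hlt⟩ := hN (Set.mk_mem_prod hx hy)
  have hlt' : 4 * η < (1 / 2 : ℝ) ^ n * |(x n : ℝ) - (y n : ℝ)| := by
    rw [← h4η]; exact hlt
  have h1 := (term_le_qdist (centre b) x n).trans hbx
  have h2 := (term_le_qdist (centre b') y n).trans hby
  have hp : (0 : ℝ) ≤ (1 / 2 : ℝ) ^ n := by positivity
  have h3 : (1 / 2 : ℝ) ^ n * |(x n : ℝ) - (y n : ℝ)| ≤
      (1 / 2 : ℝ) ^ n * |(centre b n : ℝ) - (x n : ℝ)| +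
      (1 / 2 : ℝ) ^ n * |(centre b n : ℝ) - (centre b' n : ℝ)| +
      (1 / 2 : ℝ) ^ n * |(centre b' n : ℝ) - (y n : ℝ)| := by
    rw [← mul_add, ← mul_add]
    apply mul_le_mul_of_nonneg_left _ hp
    have e1 := abs_sub_le (x n : ℝ) (centre b n : ℝ) (y n : ℝ)
    have e2 := abs_sub_le (centre b n : ℝ) (centre b' n : ℝ) (y n : ℝ)
    rw [abs_sub_comm (x n : ℝ) (centre b n : ℝ)] at e1
    linarith
  have h4 : 2 * η < (1 / 2 : ℝ) ^ n * |(centre b n : ℝ) - (centre b' n : ℝ)| := by linarith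
  have hlen : n < max b.1.length b'.1.length := by
    by_contra hcon
    push Not at hcon
    have l1 : b.1.length ≤ n := (le_max_left _ _).trans hcon
    have l2 : b'.1.length ≤ n := (le_max_right _ _).trans hcon
    have c1 : (centre b n : ℝ) = 0 := by
      show ((min (b.1.getD n 0) (b.2.1 + 1) : ℕ) : ℝ) / ((b.2.1 : ℝ) + 1) = 0
      rw [List.getD_eq_default _ _ l1]
      simp
    have c2 : (centre b' n : ℝ) = 0 := by
      show ((min (b'.1.getD n 0) (b'.2.1 + 1) : ℕ) : ℝ) / ((b'.2.1 : ℝ) + 1) = 0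
      rw [List.getD_eq_default _ _ l2]
      simp
    rw [c1, c2] at h4
    simp at h4
    linarith
  refine ⟨n, hlen, ?_⟩
  rcases le_total (centre b' n : ℝ) (centre b n : ℝ) with h5 | h5
  · left
    rw [half_iff]
    rw [abs_of_nonneg (sub_nonneg.2 h5)] at h4
    linarith
  · right
    rw [half_iff]
    rw [abs_sub_comm, abs_of_nonneg (sub_nonneg.2 h5)] at h4
    linarith

/-- rational points are dense -/
theorem approx (x : HilbertCube) {e : ℝ} (he : 0 < e) :
    ∃ (a : List ℕ) (q : ℕ), ∀ r s : ℕ, qdist (centre (a, q, r, s)) x < e := by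
  obtain ⟨N, hN⟩ := exists_pow_lt_of_lt_one (show (0 : ℝ) < e / 4 by positivity)
    (show (1 / 2 : ℝ) < 1 by norm_num)
  obtain ⟨q, hq⟩ := exists_nat_gt ((N : ℝ) / (e / 2))
  have hq1 : (0 : ℝ) < (q : ℝ) + 1 := by positivity
  have hqN : (N : ℝ) * (1 / ((q : ℝ) + 1)) < e / 2 := by
    rw [mul_one_div, div_lt_iff₀ hq1]
    rw [div_lt_iff₀ (by positivity)] at hq
    nlinarith
  refine ⟨(List.range N).map fun n => ⌊(x n : ℝ) * ((q : ℝ) + 1)⌋₊, q, fun r s => ?_⟩
  set c := centre ((List.range N).map fun n => ⌊(x n : ℝ) * ((q : ℝ) + 1)⌋₊, q, r, s) with hc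
  have hcoord : ∀ n < N, |(c n : ℝ) - (x n : ℝ)| ≤ 1 / ((q : ℝ) + 1) := by
    intro n hn
    have e1 : (c n : ℝ) = ((min (((List.range N).map
        fun n => ⌊(x n : ℝ) * ((q : ℝ) + 1)⌋₊).getD n 0) (q + 1) : ℕ) : ℝ) / ((q : ℝ) + 1) := rfl
    have e2 : ((List.range N).map fun n => ⌊(x n : ℝ) * ((q : ℝ) + 1)⌋₊).getD n 0 =
        ⌊(x n : ℝ) * ((q : ℝ) + 1)⌋₊ := by
      rw [List.getD_eq_getElem _ _ (by simpa using hn)]
      simp
    have hx0 := (x n).2.1
    have hx1 := (x n).2.2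
    have hxq : (0 : ℝ) ≤ (x n : ℝ) * ((q : ℝ) + 1) := by positivity
    have h3 : ⌊(x n : ℝ) * ((q : ℝ) + 1)⌋₊ ≤ q + 1 := by
      apply Nat.floor_le_of_le
      push_cast
      nlinarith
    rw [e1, e2, min_eq_left h3]
    have h4 := Nat.floor_le hxq
    have h5 := Nat.lt_floor_add_one ((x n : ℝ) * ((q : ℝ) + 1))
    have e3 : (⌊(x n : ℝ) * ((q : ℝ) + 1)⌋₊ : ℝ) / ((q : ℝ) + 1) - (x n : ℝ) =
        ((⌊(x n : ℝ) * ((q : ℝ) + 1)⌋₊ : ℝ) - (x n : ℝ) * ((q : ℝ) + 1)) / ((q : ℝ) + 1) := by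
      field_simp
    rw [e3, abs_div, abs_of_pos hq1]
    apply div_le_div_of_nonneg_right _ hq1.le
    rw [abs_le]
    constructor <;> linarith
  have hsum := summable_term c x
  have e1 : qdist c x = ∑ i ∈ Finset.range N, (1 / 2 : ℝ) ^ i * |(c i : ℝ) - (x i : ℝ)| +
      ∑' i, (1 / 2 : ℝ) ^ (i + N) * |(c (i + N) : ℝ) - (x (i + N) : ℝ)| :=
    (hsum.sum_add_tsum_nat_add N).symm
  have h1 : ∑ i ∈ Finset.range N, (1 / 2 : ℝ) ^ i * |(c i : ℝ) - (x i : ℝ)| ≤
      (N : ℝ) * (1 / ((q : ℝ) + 1)) := by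
    calc ∑ i ∈ Finset.range N, (1 / 2 : ℝ) ^ i * |(c i : ℝ) - (x i : ℝ)|
        ≤ ∑ i ∈ Finset.range N, 1 / ((q : ℝ) + 1) := by
          apply Finset.sum_le_sum
          intro i hi
          have h5 : (1 / 2 : ℝ) ^ i ≤ 1 := pow_le_one₀ (by norm_num) (by norm_num)
          calc (1 / 2 : ℝ) ^ i * |(c i : ℝ) - (x i : ℝ)| ≤ 1 * |(c i : ℝ) - (x i : ℝ)| :=
                mul_le_mul_of_nonneg_right h5 (abs_nonneg _)
            _ ≤ 1 / ((q : ℝ) + 1) := by
                rw [one_mul]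
                exact hcoord i (Finset.mem_range.1 hi)
      _ = (N : ℝ) * (1 / ((q : ℝ) + 1)) := by simp
  have h2 : ∑' i, (1 / 2 : ℝ) ^ (i + N) * |(c (i + N) : ℝ) - (x (i + N) : ℝ)| ≤
      2 * (1 / 2 : ℝ) ^ N := by
    have hs2 : Summable fun i : ℕ => (1 / 2 : ℝ) ^ i * (1 / 2 : ℝ) ^ N :=
      summable_geometric_two.mul_right _
    calc ∑' i, (1 / 2 : ℝ) ^ (i + N) * |(c (i + N) : ℝ) - (x (i + N) : ℝ)|
        ≤ ∑' i : ℕ, (1 / 2 : ℝ) ^ i * (1 / 2 : ℝ) ^ N := by
          refine Summable.tsum_le_tsum (fun i => ?_) ((summable_nat_add_iff N).2 hsum) hs2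
          rw [← pow_add]
          exact term_le c x (i + N)
      _ = 2 * (1 / 2 : ℝ) ^ N := by rw [tsum_mul_right, tsum_geometric_two]
  rw [e1]
  linarith

/-- a compact set inside an open set is covered by finitely many small coded balls inside it -/
theorem cover {K G : Set HilbertCube} (hK : IsCompact K) (hG : IsOpen G) (h : K ⊆ G) {η : ℝ}
    (hη : 0 < η) : ∃ L : List BallCode, (∀ y ∈ K, ∃ b ∈ L, y ∈ ball b) ∧
      ∀ b ∈ L, ball b ⊆ G ∧ rad b ≤ η ∧ ∃ x ∈ K, qdist (centre b) x ≤ η := by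
  have hx : ∀ x : HilbertCube, ∃ b : BallCode, x ∈ K →
      (x ∈ ball b ∧ ball b ⊆ G ∧ rad b ≤ η ∧ qdist (centre b) x ≤ η) := by
    intro x
    by_cases hxK : x ∈ K
    · obtain ⟨e, he, heη, heG⟩ : ∃ e : ℝ, 0 < e ∧ e ≤ η ∧ ∀ y, qdist x y < 2 * e → y ∈ G := by
        rcases (Gᶜ).eq_empty_or_nonempty with hE | hE
        · refine ⟨η, hη, le_rfl, fun y _ => ?_⟩
          by_contra hy
          have : y ∈ Gᶜ := hy
          rw [hE] at this
          exact this
        · have hc : IsCompact Gᶜ := hG.isClosed_compl.isCompact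
          obtain ⟨z, hz, hmin⟩ := hc.exists_isMinOn hE (continuous_qdist_right x).continuousOn
          have hxz : x ≠ z := by
            rintro rfl
            exact hz (h hxK)
          have hpos := qdist_pos hxz
          refine ⟨min η (qdist x z / 2), lt_min hη (by positivity), min_le_left _ _, ?_⟩
          intro y hy
          by_contra hyG
          have h1 : qdist x z ≤ qdist x y := hmin hyG
          have h2 := min_le_right η (qdist x z / 2)
          linarith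
      obtain ⟨s, hs⟩ := exists_nat_one_div_lt he
      have hs0 : (0 : ℝ) < 1 / ((s : ℝ) + 1) := by positivity
      obtain ⟨a, q, haq⟩ := approx x hs0
      have hr : rad (a, q, 0, s) = 1 / ((s : ℝ) + 1) := by simp [rad]
      refine ⟨(a, q, 0, s), fun _ => ⟨?_, ?_, ?_, ?_⟩⟩
      · show qdist _ x < rad _
        rw [hr]
        exact haq 0 s
      · intro y hy
        have hy' : qdist (centre (a, q, 0, s)) y < rad (a, q, 0, s) := hy
        rw [hr] at hy'
        apply heG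
        have h1 := qdist_triangle x (centre (a, q, 0, s)) y
        rw [qdist_comm x (centre (a, q, 0, s))] at h1
        have h2 := haq 0 s
        linarith
      · rw [hr]
        linarith
      · have h2 := haq 0 s
        linarith
    · exact ⟨([], 0, 0, 0), fun hc => absurd hc hxK⟩
  choose b hb using hx
  obtain ⟨t, htK, htc⟩ := hK.elim_nhds_subcover (fun x => ball (b x))
    (fun x hxK => (isOpen_ball _).mem_nhds (hb x hxK).1)
  refine ⟨t.toList.map b, ?_, ?_⟩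
  · intro y hy
    obtain ⟨x, hx, hyx⟩ := mem_iUnion₂.1 (htc hy)
    exact ⟨b x, List.mem_map_of_mem (Finset.mem_toList.2 hx), hyx⟩
  · intro c hc
    obtain ⟨x, hx, rfl⟩ := List.mem_map.1 hc
    have hxK := htK x (Finset.mem_toList.1 hx)
    exact ⟨(hb x hxK).2.1, (hb x hxK).2.2.1, x, hxK, (hb x hxK).2.2.2⟩

end Pool.Agent.H34.SCT
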