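import Pool.Agent.H34.SCT.Defs

/-!
# The spaces: compact, metrizable, with a dense line, and with a retraction onto `K`
-/

set_option autoImplicit false

open Set Topology OnePoint Filter

namespace Pool.Agent.H34.SCT

/-- the nearest point of `[0, 1]` -/
noncomputable def clamp (t : ℝ) : ℝ := max 0 (min t 1)

/-- A continuous map which is the identity on `[0, 1]`, takes each value at arbitrarily large and
at arbitrarily small arguments, and each orbit of which ends in `[0, 1]`. -/
noncomputable def g (t : ℝ) : ℝ := clamp t + max (|t| - 3) 0 * Real.sin t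

theorem g_continuous : Continuous g := by
  unfold g clamp; fun_prop

theorem clamp_mem (t : ℝ) : clamp t ∈ Icc (0 : ℝ) 1 :=
  ⟨le_max_left _ _, max_le zero_le_one (min_le_right _ _)⟩

theorem g_unit {t : ℝ} (h : t ∈ Icc (0 : ℝ) 1) : g t = t := by
  unfold g clamp
  have h1 : |t| - 3 ≤ 0 := by rw [abs_of_nonneg h.1]; linarith [h.2]
  rw [max_eq_right h1, min_eq_left h.2, max_eq_right h.1]; ring

theorem g_mem {t : ℝ} (h : |t| ≤ 3) : g t ∈ Icc (0 : ℝ) 1 := by
  unfold g
  rw [max_eq_right (by linarith : |t| - 3 ≤ 0), zero_mul, add_zero]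
  exact clamp_mem t

theorem g_abs {t : ℝ} (h : 3 ≤ |t|) : |g t| ≤ |t| - 2 := by
  unfold g
  rw [max_eq_left (by linarith : (0 : ℝ) ≤ |t| - 3)]
  have h1 := clamp_mem t
  have h2 : |clamp t| ≤ 1 := by rw [abs_of_nonneg h1.1]; exact h1.2
  have h3 : |(|t| - 3) * Real.sin t| ≤ |t| - 3 := by
    rw [abs_mul, abs_of_nonneg (by linarith : (0 : ℝ) ≤ |t| - 3)]
    have := Real.abs_sin_le_one t
    nlinarith
  have h4 := abs_add_le (clamp t) ((|t| - 3) * Real.sin t)
  linarith

theorem iter_mem (n : ℕ) : ∀ t : ℝ, |t| ≤ n + 1 → g^[n + 1] t ∈ Icc (0 : ℝ) 1 := by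
  induction n with
  | zero =>
    intro t ht
    have : |t| ≤ 1 := by simpa using ht
    exact g_mem (by linarith)
  | succ n ih =>
    intro t ht
    push_cast at ht
    rw [Function.iterate_succ_apply]
    rcases le_total |t| 3 with h | h
    · have h1 := g_mem h
      refine ih _ ?_
      rw [abs_of_nonneg h1.1]
      have h2 := h1.2
      have : (0 : ℝ) ≤ n := Nat.cast_nonneg n
      linarith
    · refine ih _ ?_
      have := g_abs h
      linarith

theorem iter_stable {k l : ℕ} (h : k ≤ l) {t : ℝ} (ht : g^[k] t ∈ Icc (0 : ℝ) 1) :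
    g^[l] t = g^[k] t := by
  obtain ⟨j, rfl⟩ := Nat.exists_eq_add_of_le h
  rw [Nat.add_comm, Function.iterate_add_apply]
  exact Function.iterate_fixed (g_unit ht) j

/-- the point of `[0, 1]` at which the orbit ends -/
noncomputable def retr (t : ℝ) : ℝ := g^[⌈|t|⌉₊ + 1] t

theorem iter_eq_retr {n : ℕ} {t : ℝ} (h : |t| ≤ n + 1) : g^[n + 1] t = retr t := by
  have h1 := iter_mem n t h
  have h2 : |t| ≤ (⌈|t|⌉₊ : ℝ) + 1 := (Nat.le_ceil _).trans (by linarith)
  have h3 := iter_mem _ t h2
  unfold retr
  rcases le_total n ⌈|t|⌉₊ with h4 | h4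
  · exact (iter_stable (by omega) h1).symm
  · exact iter_stable (by omega) h3

theorem retr_g (t : ℝ) : retr (g t) = retr t := by
  obtain ⟨n, hn⟩ := exists_nat_ge (max |t| |g t|)
  have h1 : |t| ≤ n := (le_max_left _ _).trans hn
  have h2 : |g t| ≤ n := (le_max_right _ _).trans hn
  rw [← iter_eq_retr (n := n) (by linarith : |g t| ≤ n + 1), ← Function.iterate_succ_apply,
    iter_eq_retr (n := n + 1)]
  push_cast
  linarith

theorem retr_iter (n : ℕ) (t : ℝ) : retr (g^[n] t) = retr t := by
  induction n with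
  | zero => rfl
  | succ n ih => rw [Function.iterate_succ_apply', retr_g, ih]

theorem retr_unit {t : ℝ} (h : t ∈ Icc (0 : ℝ) 1) : retr t = t :=
  Function.iterate_fixed (g_unit h) _

theorem retr_continuous : Continuous retr := by
  rw [continuous_iff_continuousAt]
  intro t
  have h1 : |t| < (⌈|t|⌉₊ : ℝ) + 1 := (Nat.le_ceil _).trans_lt (by linarith)
  have h2 : ∀ᶠ s in 𝓝 t, |s| < (⌈|t|⌉₊ : ℝ) + 1 :=
    continuous_abs.continuousAt.eventually_lt continuousAt_const h1
  have h3 : ContinuousAt (g^[⌈|t|⌉₊ + 1]) t := (g_continuous.iterate _).continuousAt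
  refine h3.congr ?_
  filter_upwards [h2] with s hs
  exact iter_eq_retr hs.le

theorem g_large (s T : ℝ) : ∃ t, T < t ∧ g t = s := by
  obtain ⟨k, hk⟩ := exists_nat_gt (|T| + |s| + 4)
  have hpi := Real.pi_gt_three
  have hk0 : (0 : ℝ) ≤ k := Nat.cast_nonneg k
  have h2k : (k : ℝ) ≤ k * (2 * Real.pi) := by nlinarith
  set a : ℝ := Real.pi / 2 + k * (2 * Real.pi) with ha
  set b : ℝ := (Real.pi + Real.pi / 2) + k * (2 * Real.pi) with hb
  have hTa := le_abs_self T
  have hT0 := abs_nonneg T
  have hs0 := abs_nonneg s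
  have hs1 := le_abs_self s
  have hs2 := neg_abs_le s
  have hab : a ≤ b := by rw [ha, hb]; linarith
  have ha3 : |T| + |s| + 4 < a := by rw [ha]; linarith
  have hga : g a = a - 2 := by
    unfold g clamp
    rw [ha, Real.sin_add_nat_mul_two_pi, Real.sin_pi_div_two, ← ha, abs_of_nonneg (by linarith),
      max_eq_left (by linarith : (0 : ℝ) ≤ a - 3), min_eq_right (by linarith : (1 : ℝ) ≤ a)]
    norm_num
    ring
  have hgb : g b = 4 - b := by
    unfold g clamp
    rw [hb, Real.sin_add_nat_mul_two_pi, Real.sin_add, Real.sin_pi, Real.cos_pi,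
      Real.sin_pi_div_two, ← hb, abs_of_nonneg (by linarith),
      max_eq_left (by linarith : (0 : ℝ) ≤ b - 3), min_eq_right (by linarith : (1 : ℝ) ≤ b)]
    norm_num
    ring
  have hs : s ∈ Icc (g b) (g a) := by
    rw [hga, hgb]
    constructor <;> linarith
  obtain ⟨t, ht, hgt⟩ := intermediate_value_Icc' hab g_continuous.continuousOn hs
  refine ⟨t, ?_, hgt⟩
  have := ht.1
  linarith

theorem g_large_neg (s T : ℝ) : ∃ t, t < -T ∧ g t = s := by
  obtain ⟨k, hk⟩ := exists_nat_gt (|T| + |s| + 4)
  have hpi := Real.pi_gt_three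
  have hk0 : (0 : ℝ) ≤ k := Nat.cast_nonneg k
  have h2k : (k : ℝ) ≤ k * (2 * Real.pi) := by nlinarith
  set a : ℝ := Real.pi / 2 + k * (2 * Real.pi) with ha
  set b : ℝ := (Real.pi + Real.pi / 2) + k * (2 * Real.pi) with hb
  have hTa := le_abs_self T
  have hT0 := abs_nonneg T
  have hs0 := abs_nonneg s
  have hs1 := le_abs_self s
  have hs2 := neg_abs_le s
  have hab : -b ≤ -a := by rw [ha, hb]; linarith
  have ha3 : |T| + |s| + 4 < a := by rw [ha]; linarith
  have hga : g (-a) = 3 - a := by
    unfold g clamp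
    rw [Real.sin_neg, ha, Real.sin_add_nat_mul_two_pi, Real.sin_pi_div_two, ← ha, abs_neg,
      abs_of_nonneg (by linarith),
      max_eq_left (by linarith : (0 : ℝ) ≤ a - 3), min_eq_left (by linarith : -a ≤ 1),
      max_eq_left (by linarith : -a ≤ 0)]
    ring
  have hgb : g (-b) = b - 3 := by
    unfold g clamp
    rw [Real.sin_neg, hb, Real.sin_add_nat_mul_two_pi, Real.sin_add, Real.sin_pi, Real.cos_pi,
      Real.sin_pi_div_two, ← hb, abs_neg, abs_of_nonneg (by linarith),
      max_eq_left (by linarith : (0 : ℝ) ≤ b - 3), min_eq_left (by linarith : -b ≤ 1),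
      max_eq_left (by linarith : -b ≤ 0)]
    norm_num
  have hs : s ∈ Icc (g (-a)) (g (-b)) := by
    rw [hga, hgb]
    constructor <;> linarith
  obtain ⟨t, ht, hgt⟩ := intermediate_value_Icc' hab g_continuous.continuousOn hs
  refine ⟨t, ?_, hgt⟩
  have := ht.2
  linarith

section

variable {K : Type} [TopologicalSpace K]

/-- The space: the pairs of a sequence `x` in the circle `OnePoint ℝ` and a point `y` of `K` such
that `x (n+1) = g (x n)` and `y = p (retr (x n))` whenever `x n ≠ ∞`. -/
def space (p : ℝ → K) : Set ((ℕ → OnePoint ℝ) × K) :=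
  {z | ∀ (n : ℕ) (t : ℝ), z.1 n = (t : OnePoint ℝ) →
    z.1 (n + 1) = ((g t : ℝ) : OnePoint ℝ) ∧ z.2 = p (retr t)}

/-- the space as a type -/
abbrev XX (p : ℝ → K) : Type := space p

variable {p : ℝ → K}

/-- the embedded line: `t ↦ (t, g t, g (g t), …)` -/
noncomputable def Phi (p : ℝ → K) (t : ℝ) : XX p :=
  ⟨(fun n => ((g^[n] t : ℝ) : OnePoint ℝ), p (retr t)), by
    intro n s h
    have h' : g^[n] t = s := OnePoint.coe_injective h
    refine ⟨?_, ?_⟩
    · show ((g^[n + 1] t : ℝ) : OnePoint ℝ) = _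
      rw [Function.iterate_succ_apply', h']
    · show p (retr t) = p (retr s)
      rw [← h', retr_iter]⟩

/-- `ι(x) = (∞, x_0, x_1, …)` -/
noncomputable def iota (x : XX p) : XX p :=
  ⟨(fun n => Nat.casesOn n (∞ : OnePoint ℝ) x.1.1, x.1.2), by
    intro n s h
    cases n with
    | zero => exact absurd h (OnePoint.infty_ne_coe s)
    | succ n => exact x.2 n s h⟩

/-- the shift -/
noncomputable def shift (x : XX p) : XX p :=
  ⟨(fun n => x.1.1 (n + 1), x.1.2), fun n s h => x.2 (n + 1) s h⟩

/-- the point of `K` -/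
def pr (x : XX p) : K := x.1.2

/-- the embedding of `K` -/
noncomputable def emb (p : ℝ → K) (y : K) : XX p :=
  ⟨(fun _ => ∞, y), fun _ t h => absurd h (OnePoint.infty_ne_coe t)⟩

theorem pr_emb (y : K) : pr (emb p y) = y := rfl

theorem pr_iota (x : XX p) : pr (iota x) = pr x := rfl

theorem pr_shift (x : XX p) : pr (shift x) = pr x := rfl

theorem continuous_pr : Continuous (pr (p := p)) := continuous_snd.comp continuous_subtype_val

theorem continuous_emb : Continuous (emb p) :=
  Continuous.subtype_mk (continuous_const.prodMk continuous_id) _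

theorem isOpen_S {Y : Type} [TopologicalSpace Y] [T2Space Y] {u : ℝ → Y} (hu : Continuous u) :
    IsOpen {q : OnePoint ℝ × Y | ∃ t : ℝ, q.1 = (t : OnePoint ℝ) ∧ q.2 ≠ u t} := by
  have h1 : IsOpen {q : ℝ × Y | q.2 ≠ u q.1} :=
    isOpen_ne_fun continuous_snd (hu.comp continuous_fst)
  have h2 := (OnePoint.isOpenEmbedding_coe (X := ℝ)).prodMap (IsOpenEmbedding.id (X := Y))
  have h3 := h2.isOpenMap _ h1
  convert h3 using 1
  ext ⟨a, q⟩
  constructor
  · rintro ⟨t, h, h'⟩
    exact ⟨(t, q), h', Prod.ext h.symm rfl⟩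
  · rintro ⟨⟨t, q'⟩, h, h'⟩
    have e1 : (t : OnePoint ℝ) = a := congrArg Prod.fst h'
    have e2 : q' = q := congrArg Prod.snd h'
    refine ⟨t, e1.symm, ?_⟩
    rw [← e2]
    exact h

theorem isClosed_space [T2Space K] (hp : Continuous p) : IsClosed (space p) := by
  have h : space p = (⋂ n : ℕ, {z : (ℕ → OnePoint ℝ) × K | (z.1 n, z.1 (n + 1)) ∈
      {q : OnePoint ℝ × OnePoint ℝ |
        ∃ t : ℝ, q.1 = (t : OnePoint ℝ) ∧ q.2 ≠ ((g t : ℝ) : OnePoint ℝ)}}ᶜ) ∩
      ⋂ n : ℕ, {z : (ℕ → OnePoint ℝ) × K | (z.1 n, z.2) ∈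
      {q : OnePoint ℝ × K |
        ∃ t : ℝ, q.1 = (t : OnePoint ℝ) ∧ q.2 ≠ p (retr t)}}ᶜ := by
    ext z
    rw [mem_inter_iff, mem_iInter, mem_iInter]
    constructor
    · intro hz
      refine ⟨fun n hn => ?_, fun n hn => ?_⟩
      · obtain ⟨t, h1, h2⟩ := hn
        exact h2 (hz n t h1).1
      · obtain ⟨t, h1, h2⟩ := hn
        exact h2 (hz n t h1).2
    · rintro ⟨h1, h2⟩ n t ht
      refine ⟨?_, ?_⟩
      · by_contra hne
        exact h1 n ⟨t, ht, hne⟩
      · by_contra hne
        exact h2 n ⟨t, ht, hne⟩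
  rw [h]
  refine (isClosed_iInter fun n => ?_).inter (isClosed_iInter fun n => ?_)
  · rw [isClosed_compl_iff]
    exact (isOpen_S (OnePoint.continuous_coe.comp g_continuous)).preimage
      (((continuous_apply n).comp continuous_fst).prodMk
        ((continuous_apply (n + 1)).comp continuous_fst))
  · rw [isClosed_compl_iff]
    exact (isOpen_S (hp.comp retr_continuous)).preimage
      (((continuous_apply n).comp continuous_fst).prodMk continuous_snd)

theorem compactSpace_XX [T2Space K] [CompactSpace K] (hp : Continuous p) : CompactSpace (XX p) :=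
  isCompact_iff_compactSpace.1 (isClosed_space hp).isCompact

theorem secondCountable_OnePoint : SecondCountableTopology (OnePoint ℝ) := by
  have e : OnePoint ℝ ≃ₜ Metric.sphere (0 : EuclideanSpace ℝ (Fin 2)) 1 :=
    onePointEquivSphereOfFinrankEq (by simp)
  exact e.isEmbedding.secondCountableTopology

theorem metrizable_XX [TopologicalSpace.MetrizableSpace K] [CompactSpace K] (hp : Continuous p) :
    TopologicalSpace.MetrizableSpace (XX p) := by
  haveI := secondCountable_OnePoint
  haveI : SecondCountableTopology K := by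
    letI := TopologicalSpace.metrizableSpaceMetric K
    infer_instance
  haveI := compactSpace_XX hp
  exact TopologicalSpace.metrizableSpace_of_t3_secondCountable (XX p)

theorem continuous_Phi (hp : Continuous p) : Continuous (Phi p) :=
  Continuous.subtype_mk ((continuous_pi fun n => OnePoint.continuous_coe.comp
    (g_continuous.iterate n)).prodMk (hp.comp retr_continuous)) _

theorem Phi_zero (t : ℝ) : (Phi p t).1.1 0 = (t : OnePoint ℝ) := rfl

theorem pr_Phi (t : ℝ) : pr (Phi p t) = p (retr t) := rfl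

theorem eq_Phi {x : XX p} {t : ℝ} (h : x.1.1 0 = (t : OnePoint ℝ)) : x = Phi p t := by
  apply Subtype.ext
  refine Prod.ext ?_ (x.2 0 t h).2
  funext n
  show x.1.1 n = ((g^[n] t : ℝ) : OnePoint ℝ)
  induction n with
  | zero => exact h
  | succ n ih => rw [(x.2 n _ ih).1, Function.iterate_succ_apply']

theorem Phi_injective : Function.Injective (Phi p) := by
  intro s t h
  have h1 : (Phi p s).1.1 0 = (Phi p t).1.1 0 := by rw [h]
  exact OnePoint.coe_injective h1

theorem shift_iota (x : XX p) : shift (iota x) = x := rfl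

theorem shift_Phi (t : ℝ) : shift (Phi p t) = Phi p (g t) := by
  apply Subtype.ext
  refine Prod.ext ?_ ?_
  · funext n
    show ((g^[n + 1] t : ℝ) : OnePoint ℝ) = ((g^[n] (g t) : ℝ) : OnePoint ℝ)
    rw [Function.iterate_succ_apply]
  · show p (retr t) = p (retr (g t))
    rw [retr_g]

theorem eq_iota {x : XX p} (h : x.1.1 0 = ∞) : x = iota (shift x) := by
  apply Subtype.ext
  refine Prod.ext ?_ rfl
  funext n
  cases n with
  | zero => exact h
  | succ n => rfl

theorem Phi_or_iota (x : XX p) : (∃ t, x = Phi p t) ∨ (x.1.1 0 = ∞ ∧ x = iota (shift x)) := by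
  rcases eq_or_ne (x.1.1 0) ∞ with h | h
  · exact Or.inr ⟨h, eq_iota h⟩
  · obtain ⟨t, ht⟩ := OnePoint.ne_infty_iff_exists.1 h
    exact Or.inl ⟨t, eq_Phi ht.symm⟩

theorem Phi_ne_iota (t : ℝ) (x : XX p) : Phi p t ≠ iota x := by
  intro h
  have h1 : (Phi p t).1.1 0 = (iota x).1.1 0 := by rw [h]
  exact OnePoint.coe_ne_infty t h1

theorem Phi_ne_emb (t : ℝ) (y : K) : Phi p t ≠ emb p y := by
  intro h
  have h1 : (Phi p t).1.1 0 = (emb p y).1.1 0 := by rw [h]
  exact OnePoint.coe_ne_infty t h1

theorem continuous_coord (n : ℕ) : Continuous fun x : XX p => x.1.1 n :=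
  (continuous_apply n).comp (continuous_fst.comp continuous_subtype_val)

theorem continuous_iota : Continuous (iota (p := p)) := by
  refine Continuous.subtype_mk ((continuous_pi fun n => ?_).prodMk continuous_pr) _
  cases n with
  | zero => exact continuous_const
  | succ n => exact continuous_coord n

theorem continuous_shift : Continuous (shift (p := p)) :=
  Continuous.subtype_mk ((continuous_pi fun n => continuous_coord (n + 1)).prodMk continuous_pr) _

theorem isOpen_Phi_Ioo (a b : ℝ) : IsOpen (Phi p '' Ioo a b) := by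
  have h : Phi p '' Ioo a b =
      (fun x : XX p => x.1.1 0) ⁻¹' ((fun t : ℝ => (t : OnePoint ℝ)) '' Ioo a b) := by
    ext x
    constructor
    · rintro ⟨t, ht, rfl⟩
      exact ⟨t, ht, rfl⟩
    · rintro ⟨t, ht, h⟩
      exact ⟨t, ht, (eq_Phi h.symm).symm⟩
  rw [h]
  exact (OnePoint.isOpen_image_coe.2 isOpen_Ioo).preimage (continuous_coord 0)

theorem tendsto_key (s : ℝ) (t : ℕ → ℝ) (ht : Tendsto t atTop (cocompact ℝ))
    (hg : ∀ k, g (t k) = s) : Tendsto (fun k => Phi p (t k)) atTop (𝓝 (iota (Phi p s))) := by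
  rw [tendsto_subtype_rng]
  refine Tendsto.prodMk_nhds ?_ ?_
  · rw [tendsto_pi_nhds]
    intro n
    cases n with
    | zero =>
      have h1 := OnePoint.tendsto_coe_infty (X := ℝ)
      rw [coclosedCompact_eq_cocompact] at h1
      exact h1.comp ht
    | succ n =>
      have h2 : (fun k => (Phi p (t k)).1.1 (n + 1)) = fun _ => (iota (Phi p s)).1.1 (n + 1) := by
        funext k
        show ((g^[n + 1] (t k) : ℝ) : OnePoint ℝ) = ((g^[n] s : ℝ) : OnePoint ℝ)
        rw [Function.iterate_succ_apply, hg k]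
      exact (tendsto_congr fun k => congrFun h2 k).2 tendsto_const_nhds
  · have h2 : ∀ k, (Phi p (t k)).1.2 = (iota (Phi p s)).1.2 := by
      intro k
      show p (retr (t k)) = p (retr s)
      rw [← hg k, retr_g]
    exact (tendsto_congr h2).2 tendsto_const_nhds

theorem key_pos (s M : ℝ) : iota (Phi p s) ∈ closure (Phi p '' Ici M) := by
  choose t ht hg using fun k : ℕ => g_large s (max k M)
  have h1 : Tendsto t atTop atTop := by
    refine tendsto_atTop_mono (f := fun k : ℕ => (k : ℝ)) (fun k => ?_)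
      tendsto_natCast_atTop_atTop
    exact (le_max_left (k : ℝ) M).trans (ht k).le
  have h2 := tendsto_key (p := p) s t (h1.mono_right atTop_le_cocompact) hg
  refine mem_closure_of_tendsto h2 (Eventually.of_forall fun k => ?_)
  exact ⟨t k, (le_max_right (k : ℝ) M).trans (ht k).le, rfl⟩

theorem key_neg (s M : ℝ) : iota (Phi p s) ∈ closure (Phi p '' Iic M) := by
  choose t ht hg using fun k : ℕ => g_large_neg s (max k (-M))
  have h1 : Tendsto t atTop atBot := by
    have h0 : Tendsto (fun k : ℕ => -(k : ℝ)) atTop atBot :=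
      tendsto_neg_atTop_atBot.comp tendsto_natCast_atTop_atTop
    refine tendsto_atBot_mono (fun k => ?_) h0
    have := le_max_left (k : ℝ) (-M)
    have := ht k
    linarith
  have h2 := tendsto_key (p := p) s t (h1.mono_right atBot_le_cocompact) hg
  refine mem_closure_of_tendsto h2 (Eventually.of_forall fun k => ?_)
  refine ⟨t k, ?_, rfl⟩
  have := le_max_right (k : ℝ) (-M)
  have := ht k
  show t k ≤ M
  linarith

theorem iota_closure {x : XX p} (hx : x ∈ closure (range (Phi p))) :
    iota x ∈ closure (range (Phi p)) := by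
  have h1 : iota x ∈ closure (iota '' range (Phi p)) :=
    image_closure_subset_closure_image continuous_iota (mem_image_of_mem _ hx)
  have h2 : iota '' range (Phi p) ⊆ closure (range (Phi p)) := by
    rintro _ ⟨_, ⟨s, rfl⟩, rfl⟩
    exact closure_mono (image_subset_range _ _) (key_pos s 0)
  exact closure_minimal h2 isClosed_closure h1

theorem iota_iterate (y : XX p) (n m : ℕ) (h : m < n) : (iota^[n] y).1.1 m = ∞ := by
  induction n generalizing m with
  | zero => omega
  | succ n ih =>
    rw [Function.iterate_succ_apply']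
    cases m with
    | zero => rfl
    | succ m => exact ih m (by omega)

theorem pr_iterate (y : XX p) (n : ℕ) : (iota^[n] y).1.2 = y.1.2 := by
  induction n with
  | zero => rfl
  | succ n ih =>
    rw [Function.iterate_succ_apply']
    exact ih

theorem denseRange_Phi (hs : p '' Icc 0 1 = univ) : DenseRange (Phi p) := by
  intro x
  by_cases hx : ∃ n, ∃ t : ℝ, x.1.1 n = (t : OnePoint ℝ)
  · obtain ⟨n, hn⟩ := hx
    induction n generalizing x with
    | zero =>
      obtain ⟨t, ht⟩ := hn
      exact subset_closure ⟨t, (eq_Phi ht).symm⟩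
    | succ n ih =>
      rcases Phi_or_iota x with ⟨t, ht⟩ | ⟨_, h⟩
      · exact subset_closure ⟨t, ht.symm⟩
      · rw [h]
        exact iota_closure (ih (shift x) hn)
  · push Not at hx
    have hx' : ∀ n, x.1.1 n = ∞ := by
      intro n
      by_contra h
      obtain ⟨t, ht⟩ := OnePoint.ne_infty_iff_exists.1 h
      exact hx n t ht.symm
    obtain ⟨s, hs01, hps⟩ : x.1.2 ∈ p '' Icc 0 1 := by rw [hs]; trivial
    have h1 : Tendsto (fun n => iota^[n] (Phi p s)) atTop (𝓝 x) := by
      rw [tendsto_subtype_rng]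
      refine Tendsto.prodMk_nhds ?_ ?_
      · rw [tendsto_pi_nhds]
        intro m
        rw [hx' m]
        refine tendsto_const_nhds.congr' ?_
        filter_upwards [eventually_gt_atTop m] with n hn
        exact (iota_iterate _ n m hn).symm
      · refine (tendsto_congr fun n => ?_).2 tendsto_const_nhds
        rw [pr_iterate]
        show p (retr s) = _
        rw [retr_unit hs01, hps]
    refine isClosed_closure.mem_of_tendsto h1 (Eventually.of_forall fun n => ?_)
    induction n with
    | zero => exact subset_closure ⟨s, rfl⟩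
    | succ n ih =>
      rw [Function.iterate_succ_apply']
      exact iota_closure ih

theorem connected_XX (hp : Continuous p) (hs : p '' Icc 0 1 = univ) : ConnectedSpace (XX p) := by
  haveI : PreconnectedSpace (XX p) := (denseRange_Phi hs).preconnectedSpace (continuous_Phi hp)
  exact ⟨⟨Phi p 0⟩⟩

theorem isPreconnected_compl (hp : Continuous p) (hs : p '' Icc 0 1 = univ) {a b : ℝ} :
    IsPreconnected (Phi p '' Ioo a b)ᶜ := by
  haveI : PreconnectedSpace (XX p) := (denseRange_Phi hs).preconnectedSpace (continuous_Phi hp)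
  set z := iota (Phi p 0) with hz
  have e : (Phi p '' Ioo a b)ᶜ = ((Phi p '' Iic a ∪ {z}) ∪ (Phi p '' Ici b ∪ {z})) ∪ range iota := by
    ext x
    constructor
    · intro hx
      rcases Phi_or_iota x with ⟨t, rfl⟩ | ⟨_, h1⟩
      · left
        rcases le_or_gt t a with h2 | h2
        · exact Or.inl (Or.inl ⟨t, h2, rfl⟩)
        · rcases le_or_gt b t with h3 | h3
          · exact Or.inr (Or.inl ⟨t, h3, rfl⟩)
          · exact absurd ⟨t, ⟨h2, h3⟩, rfl⟩ hx
      · exact Or.inr ⟨shift x, h1.symm⟩
    · rintro (((⟨t, ht, rfl⟩ | hx) | (⟨t, ht, rfl⟩ | hx)) | ⟨y, rfl⟩) ⟨t', ht', h'⟩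
      · have := Phi_injective h'
        rw [this] at ht'
        exact absurd ht'.1 (not_lt.2 ht)
      · rw [mem_singleton_iff.1 hx] at h'
        exact Phi_ne_iota _ _ h'
      · have := Phi_injective h'
        rw [this] at ht'
        exact absurd ht'.2 (not_lt.2 ht)
      · rw [mem_singleton_iff.1 hx] at h'
        exact Phi_ne_iota _ _ h'
      · exact Phi_ne_iota _ _ h'
  rw [e]
  have h1 : IsPreconnected (Phi p '' Iic a ∪ {z}) := by
    refine (isPreconnected_Iic.image (Phi p) (continuous_Phi hp).continuousOn).subset_closure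
      subset_union_left ?_
    exact union_subset subset_closure (singleton_subset_iff.2 (key_neg 0 a))
  have h2 : IsPreconnected (Phi p '' Ici b ∪ {z}) := by
    refine (isPreconnected_Ici.image (Phi p) (continuous_Phi hp).continuousOn).subset_closure
      subset_union_left ?_
    exact union_subset subset_closure (singleton_subset_iff.2 (key_pos 0 b))
  have h3 : IsPreconnected (range (iota (p := p))) := isPreconnected_range continuous_iota
  have h4 := IsPreconnected.union z (Or.inr rfl) (Or.inr rfl) h1 h2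
  exact IsPreconnected.union z (Or.inl (Or.inr rfl)) ⟨Phi p 0, rfl⟩ h4 h3

theorem iota_injective : Function.Injective (iota (p := p)) :=
  Function.LeftInverse.injective (g := shift) shift_iota

theorem properlyContainsCopy_XX [T2Space K] [CompactSpace K] (hp : Continuous p) :
    ProperlyContainsCopy (XX p) := by
  haveI := compactSpace_XX hp
  refine ⟨range iota, ?_, ?_⟩
  · intro h
    have : Phi p 0 ∈ range (iota (p := p)) := by rw [h]; trivial
    obtain ⟨y, hy⟩ := this
    exact Phi_ne_iota _ _ hy.symm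
  · have h := continuous_iota.isClosedEmbedding (iota_injective (p := p))
    exact ⟨h.isEmbedding.toHomeomorph⟩

end

end Pool.Agent.H34.SCT
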